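import Pool.Agent.H323R2.Chg
import Pool.Agent.H323R2.Alg

/-!
Joint lower bounds for the number of failures of digit relations of several real numbers, from a
`Good` integer combination of them (`Pool.Agent.H323R2.Good`).
-/

set_option autoImplicit false

namespace Pool.Agent.N549.JC

open Polynomial Finset Filter Pool.Agent.H323R2

/-- a sequence of small variation next to a good number -/
theorem count_of_V (b : ℕ) (θ : ℝ) (h : Good b θ) (U : ℕ → ℤ) (C0 : ℝ)
    (hU : ∀ K, |(U K : ℝ) - (b : ℝ) ^ K * θ| ≤ C0) (M : ℕ → ℕ) (hM : Monotone M) (u B : ℝ)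
    (hu : 0 ≤ u) (hB : 0 ≤ B) (hV : ∀ N, (V b U N : ℝ) ≤ u + B * (M N : ℝ)) :
    ∃ c δ : ℝ, 0 < c ∧ 0 < δ ∧ ∀ᶠ N : ℕ in atTop, c * (N : ℝ) ^ δ ≤ (M N : ℝ) := by
  obtain ⟨C1, hC1, m', κ, hm, hκ, h1⟩ := h C0
  obtain ⟨c, hc, hev⟩ := power_bound M κ hκ (m' * ((C1 + 1) * (1 + u + B) ^ κ))
    (by positivity) (by
      intro N
      have h2 := h1 U hU (N / m')
      have h3 := hV (m' * (N / m'))
      have h4 : (M (m' * (N / m')) : ℝ) ≤ (M N : ℝ) := by
        exact_mod_cast hM (Nat.mul_div_le N m')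
      have h5 : (N : ℝ) ≤ m' * (((N / m' : ℕ) : ℝ) + 1) := by
        have : N < m' * (N / m' + 1) := Nat.lt_mul_div_succ N (by omega)
        exact_mod_cast this.le
      have hV0 : (0 : ℝ) ≤ (V b U (m' * (N / m')) : ℝ) := by exact_mod_cast V_nonneg b U _
      have h6 : 1 + (V b U (m' * (N / m')) : ℝ) ≤ (1 + u + B) * (1 + (M N : ℝ)) := by
        have hc0 : (0 : ℝ) ≤ (M N : ℝ) := by positivity
        have := mul_le_mul_of_nonneg_left h4 hB
        nlinarith
      have h7 : (1 + (V b U (m' * (N / m')) : ℝ)) ^ κ ≤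
          ((1 + u + B) * (1 + (M N : ℝ))) ^ κ :=
        pow_le_pow_left₀ (by linarith) h6 _
      have h8 : (1 : ℝ) ≤ ((1 + u + B) * (1 + (M N : ℝ))) ^ κ := by
        apply one_le_pow₀
        linarith
      calc (N : ℝ) ≤ m' * (((N / m' : ℕ) : ℝ) + 1) := h5
        _ ≤ m' * (C1 * (1 + (V b U (m' * (N / m')) : ℝ)) ^ κ + 1) := by
            apply mul_le_mul_of_nonneg_left _ (by positivity)
            linarith
        _ ≤ m' * ((C1 + 1) * ((1 + u + B) * (1 + (M N : ℝ))) ^ κ) := by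
            apply mul_le_mul_of_nonneg_left _ (by positivity)
            have := mul_le_mul_of_nonneg_left h7 hC1.le
            linarith
        _ = _ := by rw [mul_pow]; ring)
  refine ⟨c, (1 : ℝ) / κ, hc, ?_, hev⟩
  have : (0 : ℝ) < κ := by exact_mod_cast hκ
  positivity

/-- the partial sums of an expansion with bounded digits, as integers -/
def psum (b : ℕ) (g : ℕ → ℤ) : ℕ → ℤ
  | 0 => g 0
  | k + 1 => b * psum b g k + g (k + 1)

lemma psum_eq (b : ℕ) (hb : 2 ≤ b) (g : ℕ → ℤ) (K : ℕ) :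
    (psum b g K : ℝ) = (b : ℝ) ^ K * ∑ k ∈ range (K + 1), (g k : ℝ) / (b : ℝ) ^ k := by
  have hb0 : (b : ℝ) ≠ 0 := by positivity
  induction K with
  | zero => simp [psum]
  | succ K ih =>
    rw [psum, Finset.sum_range_succ]
    push_cast
    rw [ih, mul_add, pow_succ]
    field_simp

lemma psum_approx (b : ℕ) (hb : 2 ≤ b) (g : ℕ → ℤ) (G : ℤ) (hg : ∀ k, |g k| ≤ G) (x : ℝ)
    (hx : HasSum (fun k : ℕ => (g k : ℝ) / (b : ℝ) ^ k) x) (K : ℕ) :
    |(psum b g K : ℝ) - (b : ℝ) ^ K * x| ≤ G := by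
  have hb0 : (0 : ℝ) < b := by positivity
  have hb2 : (2 : ℝ) ≤ b := by exact_mod_cast hb
  have h1 := (hasSum_nat_add_iff' (K + 1)).2 hx
  have e1 : (psum b g K : ℝ) - (b : ℝ) ^ K * x =
      -((b : ℝ) ^ K * (x - ∑ k ∈ range (K + 1), (g k : ℝ) / (b : ℝ) ^ k)) := by
    rw [psum_eq b hb]; ring
  rw [e1, abs_neg, abs_mul, abs_of_pos (pow_pos hb0 K)]
  have hG : (0 : ℝ) ≤ G := by exact_mod_cast (abs_nonneg _).trans (hg 0)
  have hgeo : HasSum (fun k : ℕ => (G : ℝ) / (b : ℝ) ^ (K + 1) * (1 / 2) ^ k)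
      ((G : ℝ) / (b : ℝ) ^ (K + 1) * 2) := hasSum_geometric_two.mul_left _
  have h2 : |x - ∑ k ∈ range (K + 1), (g k : ℝ) / (b : ℝ) ^ k| ≤
      (G : ℝ) / (b : ℝ) ^ (K + 1) * 2 := by
    rw [← h1.tsum_eq, ← hgeo.tsum_eq, ← Real.norm_eq_abs]
    refine tsum_of_norm_bounded hgeo ?_ |>.trans (le_of_eq hgeo.tsum_eq.symm)
    intro k
    rw [Real.norm_eq_abs, abs_div, abs_of_pos (pow_pos hb0 _)]
    have h3 : |(g (k + (K + 1)) : ℝ)| ≤ G := by exact_mod_cast hg _
    have h4 : (2 : ℝ) ^ k ≤ (b : ℝ) ^ k := pow_le_pow_left₀ (by norm_num) hb2 k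
    calc |(g (k + (K + 1)) : ℝ)| / (b : ℝ) ^ (k + (K + 1)) ≤ G / (b : ℝ) ^ (k + (K + 1)) := by
          gcongr
      _ = G / (b : ℝ) ^ (K + 1) * (1 / (b : ℝ) ^ k) := by rw [pow_add]; field_simp
      _ ≤ G / (b : ℝ) ^ (K + 1) * (1 / 2) ^ k := by
          rw [one_div_pow]
          gcongr
  calc (b : ℝ) ^ K * |x - ∑ k ∈ range (K + 1), (g k : ℝ) / (b : ℝ) ^ k|
      ≤ (b : ℝ) ^ K * ((G : ℝ) / (b : ℝ) ^ (K + 1) * 2) := by gcongr
    _ = G * (2 / b) := by rw [pow_succ]; field_simp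
    _ ≤ G * 1 := by
        apply mul_le_mul_of_nonneg_left _ hG
        rw [div_le_one hb0]; exact hb2
    _ = G := mul_one _

/-- For all expansions `x i = ∑_k g i k / b ^ k` with bounded integers `g i k` and all linear
relations `q_{i,0} g_{i,k} + … + q_{i,m} g_{i,k+m} = e_i` with integer coefficients and
`q_{i,0} + q_{i,1} b + … + q_{i,m} b^m ≠ 0` (one for every `i`) the numbers of failures among the
first `N` indices, added up over `i`, are at least `c N ^ δ` for all large `N`. -/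
def JointlyFail {ι : Type} [Fintype ι] (x : ι → ℝ) (b : ℕ) : Prop :=
  ∀ (g : ι → ℕ → ℤ) (G : ℤ), (∀ i k, |g i k| ≤ G) →
    (∀ i, HasSum (fun k : ℕ => (g i k : ℝ) / (b : ℝ) ^ k) (x i)) →
    ∀ (m : ℕ) (q : ι → ℕ → ℤ) (e : ι → ℤ), (∀ i, ∑ j ∈ range (m + 1), q i j * (b : ℤ) ^ j ≠ 0) →
      ∃ c δ : ℝ, 0 < c ∧ 0 < δ ∧ ∀ᶠ N : ℕ in atTop, c * (N : ℝ) ^ δ ≤
        ((∑ i, ((range N).filter (fun k : ℕ =>
          ∑ j ∈ range (m + 1), q i j * g i (k + 1 + j) ≠ e i)).card : ℕ) : ℝ)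

/-- if all integer combinations `∑ t^(σ i) B_i x_i` with a suitable `t` are good, then the
relations fail jointly -/
theorem joint_of_good {ι : Type} [Fintype ι] (x : ι → ℝ) (b : ℕ) (hb : 2 ≤ b)
    (h : ∀ B : ι → ℤ, (∀ i, B i ≠ 0) → ∃ w : ι → ℤ, Good b (∑ i, (w i * B i : ℤ) * x i)) :
    JointlyFail x b := by
  intro g G hg hs m q e hq
  have hb0 : (0 : ℤ) < b := by exact_mod_cast (by omega : 0 < b)
  have hb1' : (0 : ℤ) ≤ (b : ℤ) - 1 := by linarith
  have hb1 : ((b : ℤ) - 1) ≠ 0 := by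
    have : (2 : ℤ) ≤ b := by exact_mod_cast hb
    omega
  have hb1R : (0 : ℝ) ≤ (b : ℝ) - 1 := by exact_mod_cast hb1'
  have hG0 : ∀ i : ι, 0 ≤ G := fun i => (abs_nonneg _).trans (hg i 0)
  set B : ι → ℤ := fun i => ((b : ℤ) - 1) * ∑ j ∈ range (m + 1), q i j * (b : ℤ) ^ j with hB
  obtain ⟨w, hw⟩ := h B (fun i => mul_ne_zero hb1 (hq i))
  set Ui : ι → ℕ → ℤ := fun i K =>
    ((b : ℤ) - 1) * ∑ j ∈ range (m + 1), q i j * psum b (g i) (K + j) + e i with hUi
  have happ : ∀ i K, |(Ui i K : ℝ) - (b : ℝ) ^ K * ((B i : ℝ) * x i)| ≤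
      ((b : ℝ) - 1) * ∑ j ∈ range (m + 1), |(q i j : ℝ)| * G + |(e i : ℝ)| := by
    intro i K
    have e1 : (Ui i K : ℝ) - (b : ℝ) ^ K * ((B i : ℝ) * x i) =
        ((b : ℝ) - 1) * ∑ j ∈ range (m + 1),
          (q i j : ℝ) * ((psum b (g i) (K + j) : ℝ) - (b : ℝ) ^ (K + j) * x i) + e i := by
      simp only [hUi, hB]
      push_cast
      simp_rw [mul_sub]
      rw [Finset.sum_sub_distrib]
      have : ∑ j ∈ range (m + 1), (q i j : ℝ) * ((b : ℝ) ^ (K + j) * x i) =
          (b : ℝ) ^ K * ((∑ j ∈ range (m + 1), (q i j : ℝ) * (b : ℝ) ^ j) * x i) := by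
        rw [Finset.sum_mul, Finset.mul_sum]
        apply Finset.sum_congr rfl
        intro j _
        rw [pow_add]; ring
      rw [this]; ring
    rw [e1]
    refine (abs_add_le _ _).trans ?_
    apply add_le_add _ le_rfl
    rw [abs_mul, abs_of_nonneg hb1R]
    apply mul_le_mul_of_nonneg_left _ hb1R
    refine (Finset.abs_sum_le_sum_abs _ _).trans ?_
    apply Finset.sum_le_sum
    intro j _
    rw [abs_mul]
    exact mul_le_mul_of_nonneg_left (psum_approx b hb (g i) G (hg i) (x i) (hs i) _) (abs_nonneg _)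
  set U : ℕ → ℤ := fun K => ∑ i, w i * Ui i K with hU
  set M : ℕ → ℕ := fun N => ∑ i, ((range N).filter (fun k : ℕ =>
          ∑ j ∈ range (m + 1), q i j * g i (k + 1 + j) ≠ e i)).card with hM
  have hMmono : Monotone M := by
    intro N N' hN
    apply Finset.sum_le_sum
    intro i _
    apply Finset.card_le_card
    apply Finset.filter_subset_filter
    intro k hk
    rw [Finset.mem_range] at *
    omega
  have hUapp : ∀ K, |(U K : ℝ) - (b : ℝ) ^ K * (∑ i, (w i * B i : ℤ) * x i)| ≤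
      ∑ i, |(w i : ℝ)| * (((b : ℝ) - 1) * ∑ j ∈ range (m + 1), |(q i j : ℝ)| * G +
        |(e i : ℝ)|) := by
    intro K
    have e1 : (U K : ℝ) - (b : ℝ) ^ K * (∑ i, (w i * B i : ℤ) * x i) =
        ∑ i, (w i : ℝ) * ((Ui i K : ℝ) - (b : ℝ) ^ K * ((B i : ℝ) * x i)) := by
      simp only [hU]
      push_cast
      rw [Finset.mul_sum, ← Finset.sum_sub_distrib]
      apply Finset.sum_congr rfl
      intro i _
      ring
    rw [e1]
    refine (Finset.abs_sum_le_sum_abs _ _).trans ?_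
    apply Finset.sum_le_sum
    intro i _
    rw [abs_mul]
    exact mul_le_mul_of_nonneg_left (happ i K) (abs_nonneg _)
  set D : ι → ℤ := fun i => |w i| * (((b : ℤ) - 1) * (∑ j ∈ range (m + 1), |q i j| * G + |e i|))
    with hD
  have hD0 : ∀ i, 0 ≤ D i := by
    intro i
    apply mul_nonneg (abs_nonneg _)
    apply mul_nonneg hb1'
    apply add_nonneg _ (abs_nonneg _)
    exact Finset.sum_nonneg fun j _ => mul_nonneg (abs_nonneg _) (hG0 i)
  have hdl : ∀ i k, Ui i (k + 1) - b * Ui i k = ((b : ℤ) - 1) *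
        (∑ j ∈ range (m + 1), q i j * g i (k + 1 + j) - e i) := by
    intro i k
    have e5 : ∀ j, q i j * g i (k + 1 + j) =
        q i j * psum b (g i) (k + 1 + j) - b * (q i j * psum b (g i) (k + j)) := by
      intro j
      have e6 : psum b (g i) (k + 1 + j) = b * psum b (g i) (k + j) + g i (k + 1 + j) := by
        rw [show k + 1 + j = k + j + 1 by ring, psum]
      rw [e6]; ring
    simp_rw [e5]
    rw [Finset.sum_sub_distrib, ← Finset.mul_sum]
    simp only [hUi]
    ring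
  have hV : ∀ N : ℕ, V b U N ≤ |U 0| + (∑ i, D i) * (M N : ℤ) := by
    intro N
    unfold V
    rw [Finset.sum_range_succ', add_comm]
    apply add_le_add (le_of_eq rfl)
    have e7 : ∀ k, |dlt b U (k + 1)| ≤ ∑ i, D i * (if ∑ j ∈ range (m + 1),
        q i j * g i (k + 1 + j) ≠ e i then 1 else 0) := by
      intro k
      have e8 : dlt b U (k + 1) = ∑ i, w i * (Ui i (k + 1) - b * Ui i k) := by
        simp only [dlt, hU, mul_sub]
        rw [Finset.sum_sub_distrib, Finset.mul_sum]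
        congr 1
        apply Finset.sum_congr rfl
        intro i _
        ring
      rw [e8]
      refine (Finset.abs_sum_le_sum_abs _ _).trans ?_
      apply Finset.sum_le_sum
      intro i _
      rw [hdl i k, abs_mul]
      split_ifs with hc
      · rw [mul_one, hD]
        apply mul_le_mul_of_nonneg_left _ (abs_nonneg _)
        rw [abs_mul, abs_of_nonneg hb1']
        apply mul_le_mul_of_nonneg_left _ hb1'
        refine (abs_sub _ _).trans ?_
        apply add_le_add _ le_rfl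
        refine (Finset.abs_sum_le_sum_abs _ _).trans ?_
        apply Finset.sum_le_sum
        intro j _
        rw [abs_mul]
        exact mul_le_mul_of_nonneg_left (hg i _) (abs_nonneg _)
      · rw [not_not] at hc
        rw [hc]; simp
    calc ∑ k ∈ range N, |dlt b U (k + 1)| ≤ ∑ k ∈ range N, ∑ i, D i * (if ∑ j ∈ range (m + 1),
        q i j * g i (k + 1 + j) ≠ e i then 1 else 0) := Finset.sum_le_sum fun k _ => e7 k
      _ = ∑ i, D i * (((range N).filter (fun k : ℕ =>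
          ∑ j ∈ range (m + 1), q i j * g i (k + 1 + j) ≠ e i)).card : ℤ) := by
          rw [Finset.sum_comm]
          apply Finset.sum_congr rfl
          intro i _
          rw [← Finset.mul_sum, Finset.card_filter]
          push_cast
          rfl
      _ ≤ ∑ i, D i * (M N : ℤ) := by
          apply Finset.sum_le_sum
          intro i _
          apply mul_le_mul_of_nonneg_left _ (hD0 i)
          simp only [hM]
          push_cast
          exact Finset.single_le_sum (f := fun i => (((range N).filter (fun k : ℕ =>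
            ∑ j ∈ range (m + 1), q i j * g i (k + 1 + j) ≠ e i)).card : ℤ))
            (fun i _ => by positivity) (Finset.mem_univ i)
      _ = _ := by rw [Finset.sum_mul]
  have hDs : (0 : ℤ) ≤ ∑ i, D i := Finset.sum_nonneg fun i _ => hD0 i
  exact count_of_V b _ hw U _ hUapp M hMmono |(U 0 : ℝ)| ((∑ i, D i : ℤ) : ℝ) (abs_nonneg _)
    (by exact_mod_cast hDs) (fun N => by exact_mod_cast hV N)

end Pool.Agent.N549.JC
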