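import Pool.Agent.N549.JC.Desc

/-!
Joint failure of digit relations for the conjugates of an algebraic number.
-/

set_option autoImplicit false

namespace Pool.Agent.N549.JC

open Polynomial Pool.Agent.H323R2 NumberField IntermediateField

lemma nf_simple_real (z : ℝ) (hz : IsAlgebraic ℚ z) : NumberField ℚ⟮z⟯ := by
  have : FiniteDimensional ℚ ℚ⟮z⟯ := adjoin.finiteDimensional hz.isIntegral
  exact { to_finiteDimensional := inferInstance }

lemma nf_simple_complex (z : ℂ) (hz : IsAlgebraic ℚ z) : NumberField ℚ⟮z⟯ := by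
  have : FiniteDimensional ℚ ℚ⟮z⟯ := adjoin.finiteDimensional hz.isIntegral
  exact { to_finiteDimensional := inferInstance }

lemma nf_adjoin_real (S : Set ℝ) (hfin : S.Finite) (hS : ∀ s ∈ S, IsAlgebraic ℚ s) :
    NumberField (adjoin ℚ S) := by
  have : Finite S := hfin
  have : FiniteDimensional ℚ (adjoin ℚ S) :=
    finiteDimensional_adjoin fun s hs => (hS s hs).isIntegral
  exact { to_finiteDimensional := inferInstance }

lemma nf_adjoin_complex (S : Set ℂ) (hfin : S.Finite) (hS : ∀ s ∈ S, IsAlgebraic ℚ s) :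
    NumberField (adjoin ℚ S) := by
  have : Finite S := hfin
  have : FiniteDimensional ℚ (adjoin ℚ S) :=
    finiteDimensional_adjoin fun s hs => (hS s hs).isIntegral
  exact { to_finiteDimensional := inferInstance }

section real

variable (z : ℝ)

lemma galois_real (hsp : ((minpoly ℚ z).map (algebraMap ℚ ℝ)).Splits) :
    IsGalois ℚ (adjoin ℚ ((minpoly ℚ z).rootSet ℝ)) := by
  have h1 : (minpoly ℚ z).IsSplittingField ℚ (adjoin ℚ ((minpoly ℚ z).rootSet ℝ)) :=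
    adjoin_rootSet_isSplittingField hsp
  have h2 : Normal ℚ (adjoin ℚ ((minpoly ℚ z).rootSet ℝ)) := Normal.of_isSplittingField (minpoly ℚ z)
  have : Algebra.IsAlgebraic ℚ (adjoin ℚ ((minpoly ℚ z).rootSet ℝ)) := h2.toIsAlgebraic
  exact ⟨⟩

lemma mem_rootSet_self (hz : IsAlgebraic ℚ z) : z ∈ (minpoly ℚ z).rootSet ℝ := by
  rw [mem_rootSet]
  exact ⟨minpoly.ne_zero hz.isIntegral, minpoly.aeval ℚ z⟩

lemma alg_of_mem_rootSet (s : ℝ) (hs : s ∈ (minpoly ℚ z).rootSet ℝ) :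
    IsAlgebraic ℚ s := by
  rw [mem_rootSet] at hs
  exact ⟨minpoly ℚ z, hs.1, hs.2⟩

theorem joint_real (hz : IsAlgebraic ℚ z) (hsp : ((minpoly ℚ z).map (algebraMap ℚ ℝ)).Splits)
    (p : ℕ) (hp : p.Prime) (P : Ideal (𝓞 ℚ⟮z⟯)) (hP : P.IsPrime) (hpP0 : (p : 𝓞 ℚ⟮z⟯) ∈ P)
    (hpP : (p : 𝓞 ℚ⟮z⟯) ∈ P ^ 2) (b : ℕ) (hb : 2 ≤ b) (hpb : ¬ p ∣ b) :
    JointlyFail (fun r : (minpoly ℚ z).rootSet ℝ => (r : ℝ)) b := by
  have hg := galois_real z hsp
  have hnf : NumberField (adjoin ℚ ((minpoly ℚ z).rootSet ℝ)) :=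
    nf_adjoin_real _ (rootSet_finite _ _) (alg_of_mem_rootSet z)
  have hnf2 : NumberField ℚ⟮z⟯ := nf_simple_real z hz
  have hle : ℚ⟮z⟯ ≤ adjoin ℚ ((minpoly ℚ z).rootSet ℝ) := by
    rw [adjoin_simple_le_iff]
    exact subset_adjoin ℚ _ (mem_rootSet_self z hz)
  refine joint_of_ram _ (adjoin ℚ ((minpoly ℚ z).rootSet ℝ)) (by rw [Subtype.range_coe])
    (adjoin ℚ ((minpoly ℚ z).rootSet ℝ)) (RingHom.id _) p hp ?_ b hb hpb
  intro Q hQ hpQ
  exact all_ram _ _ (inclusion hle : ℚ⟮z⟯ →+* _) p hp P hP hpP0 hpP Q hQ hpQ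

theorem exists_prime_real (hz : IsAlgebraic ℚ z)
    (hsp : ((minpoly ℚ z).map (algebraMap ℚ ℝ)).Splits) (hirr : Irrational z) :
    ∃ p : ℕ, p.Prime ∧ ∀ b : ℕ, 2 ≤ b → ¬ p ∣ b →
      JointlyFail (fun r : (minpoly ℚ z).rootSet ℝ => (r : ℝ)) b := by
  have hg := galois_real z hsp
  have hnf : NumberField (adjoin ℚ ((minpoly ℚ z).rootSet ℝ)) :=
    nf_adjoin_real _ (rootSet_finite _ _) (alg_of_mem_rootSet z)
  have hrank : 1 < Module.finrank ℚ (adjoin ℚ ((minpoly ℚ z).rootSet ℝ)) := by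
    have h1 : 0 < Module.finrank ℚ (adjoin ℚ ((minpoly ℚ z).rootSet ℝ)) := Module.finrank_pos
    by_contra h2
    have h3 : Module.finrank ℚ (adjoin ℚ ((minpoly ℚ z).rootSet ℝ)) = 1 := by omega
    have h4 := finrank_eq_one_iff.1 h3
    have h5 : z ∈ (⊥ : IntermediateField ℚ ℝ) := by
      rw [← h4]
      exact subset_adjoin ℚ _ (mem_rootSet_self z hz)
    rw [mem_bot] at h5
    obtain ⟨q, hq⟩ := h5
    exact hirr ⟨q, hq⟩
  obtain ⟨p, hp, h⟩ := NumberField.exists_not_isUnramifiedAt_int_of_isGalois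
    (K := adjoin ℚ ((minpoly ℚ z).rootSet ℝ)) (𝒪 := 𝓞 (adjoin ℚ ((minpoly ℚ z).rootSet ℝ))) hrank
  refine ⟨p, hp, fun b hb hpb => ?_⟩
  refine joint_of_ram _ (adjoin ℚ ((minpoly ℚ z).rootSet ℝ)) (by rw [Subtype.range_coe])
    (adjoin ℚ ((minpoly ℚ z).rootSet ℝ)) (RingHom.id _) p hp ?_ b hb hpb
  intro P hP hpP
  exact mem_sq_of_not_unramified _ p hp P hP hpP (h P hP hpP)

end real

section complex

variable (z : ℂ)

/-- The real numbers `Re z'` and `Im z'`, `z'` running over the conjugates of `z`. -/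
noncomputable def reIm (r : (minpoly ℚ z).rootSet ℂ × Bool) : ℝ :=
  cond r.2 (r.1 : ℂ).re (r.1 : ℂ).im

/-- the complex numbers with real and imaginary parts in `F` -/
def cfield (F : IntermediateField ℚ ℝ) : IntermediateField ℚ ℂ where
  carrier := {w | w.re ∈ F ∧ w.im ∈ F}
  mul_mem' := by
    rintro a b ⟨h1, h2⟩ ⟨h3, h4⟩
    refine ⟨?_, ?_⟩
    · rw [Complex.mul_re]; exact sub_mem (mul_mem h1 h3) (mul_mem h2 h4)
    · rw [Complex.mul_im]; exact add_mem (mul_mem h1 h4) (mul_mem h2 h3)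
  add_mem' := by
    rintro a b ⟨h1, h2⟩ ⟨h3, h4⟩
    refine ⟨?_, ?_⟩
    · rw [Complex.add_re]; exact add_mem h1 h3
    · rw [Complex.add_im]; exact add_mem h2 h4
  algebraMap_mem' := by
    intro q
    refine ⟨?_, ?_⟩
    · have : ((algebraMap ℚ ℂ) q).re = algebraMap ℚ ℝ q := by simp
      rw [this]; exact F.algebraMap_mem q
    · have : ((algebraMap ℚ ℂ) q).im = 0 := by simp
      rw [this]; exact F.zero_mem
  inv_mem' := by
    rintro a ⟨h1, h2⟩
    have h3 : Complex.normSq a ∈ F := by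
      rw [Complex.normSq_apply]; exact add_mem (mul_mem h1 h1) (mul_mem h2 h2)
    refine ⟨?_, ?_⟩
    · rw [Complex.inv_re]; exact div_mem h1 h3
    · rw [Complex.inv_im]; exact div_mem (neg_mem h2) h3

/-- the field generated by the real and imaginary parts of the conjugates -/
noncomputable abbrev FF : IntermediateField ℚ ℝ := adjoin ℚ (Set.range (reIm z))

/-- the splitting field of `f (X ^ 2 + 1)` -/
noncomputable abbrev MM : IntermediateField ℚ ℂ :=
  adjoin ℚ ((minpoly ℚ z * (X ^ 2 + 1) : ℚ[X]).rootSet ℂ)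

lemma poly_ne_zero (hz : IsAlgebraic ℚ z) : (minpoly ℚ z * (X ^ 2 + 1) : ℚ[X]) ≠ 0 := by
  apply mul_ne_zero (minpoly.ne_zero hz.isIntegral)
  have : (X ^ 2 + 1 : ℚ[X]) = X ^ 2 + C 1 := by simp
  rw [this]
  exact X_pow_add_C_ne_zero (by norm_num) _

lemma I_mem (hz : IsAlgebraic ℚ z) : Complex.I ∈ MM z := by
  apply subset_adjoin
  rw [mem_rootSet]
  refine ⟨poly_ne_zero z hz, ?_⟩
  simp

lemma root_mem (hz : IsAlgebraic ℚ z) (r : ℂ) (hr : r ∈ (minpoly ℚ z).rootSet ℂ) : r ∈ MM z := by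
  apply subset_adjoin
  rw [mem_rootSet] at *
  refine ⟨poly_ne_zero z hz, ?_⟩
  rw [map_mul, hr.2, zero_mul]

lemma conj_root (r : ℂ) (hr : r ∈ (minpoly ℚ z).rootSet ℂ) :
    (starRingEnd ℂ) r ∈ (minpoly ℚ z).rootSet ℂ := by
  rw [mem_rootSet] at *
  refine ⟨hr.1, ?_⟩
  have h1 : (aeval ((Complex.conjAe.restrictScalars ℚ) r)) (minpoly ℚ z) =
      (Complex.conjAe.restrictScalars ℚ) ((aeval r) (minpoly ℚ z)) :=
    Polynomial.aeval_algHom_apply (Complex.conjAe.restrictScalars ℚ).toAlgHom _ _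
  rw [hr.2, map_zero] at h1
  exact h1

lemma MM_le (hz : IsAlgebraic ℚ z) : MM z ≤ cfield (FF z) := by
  rw [adjoin_le_iff]
  intro r hr
  rw [mem_rootSet, map_mul, mul_eq_zero] at hr
  obtain ⟨-, hr | hr⟩ := hr
  · have hr' : r ∈ (minpoly ℚ z).rootSet ℂ := by
      rw [mem_rootSet]; exact ⟨minpoly.ne_zero hz.isIntegral, hr⟩
    refine ⟨subset_adjoin ℚ _ ⟨(⟨r, hr'⟩, true), rfl⟩, subset_adjoin ℚ _ ⟨(⟨r, hr'⟩, false), rfl⟩⟩
  · have h1 : r ^ 2 = -1 := by
      have : r ^ 2 + 1 = 0 := by simpa using hr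
      linear_combination this
    have h2 : (r - Complex.I) * (r + Complex.I) = 0 := by
      linear_combination h1 - Complex.I_sq
    rcases mul_eq_zero.1 h2 with h3 | h3
    · have : r = Complex.I := by linear_combination h3
      rw [this]
      refine ⟨?_, ?_⟩
      · rw [Complex.I_re]; exact zero_mem _
      · rw [Complex.I_im]; exact one_mem _
    · have : r = -Complex.I := by linear_combination h3
      rw [this]
      refine ⟨?_, ?_⟩
      · rw [Complex.neg_re, Complex.I_re, neg_zero]; exact zero_mem _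
      · rw [Complex.neg_im, Complex.I_im]; exact neg_mem (one_mem _)

/-- real numbers in an intermediate field of `ℂ` -/
noncomputable def rfield (M : IntermediateField ℚ ℂ) : IntermediateField ℚ ℝ :=
  M.comap (Complex.ofRealAm.restrictScalars ℚ)

lemma FF_le (hz : IsAlgebraic ℚ z) : FF z ≤ rfield (MM z) := by
  rw [adjoin_le_iff]
  rintro _ ⟨⟨⟨r, hr⟩, s⟩, rfl⟩
  have h1 := root_mem z hz r hr
  have h2 := root_mem z hz _ (conj_root z r hr)
  have h3 := I_mem z hz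
  have h20 : (2 : ℂ)⁻¹ ∈ MM z := inv_mem (_root_.natCast_mem (MM z) 2)
  rcases s with _ | _
  · show ((r.im : ℝ) : ℂ) ∈ MM z
    have e1 : ((r.im : ℝ) : ℂ) = -(Complex.I * (2 : ℂ)⁻¹ * (r - (starRingEnd ℂ) r)) := by
      rw [Complex.sub_conj]
      push_cast
      linear_combination (r.im : ℂ) * Complex.I_sq
    rw [e1]
    exact neg_mem (mul_mem (mul_mem h3 h20) (sub_mem h1 h2))
  · show ((r.re : ℝ) : ℂ) ∈ MM z
    have e1 : ((r.re : ℝ) : ℂ) = (2 : ℂ)⁻¹ * (r + (starRingEnd ℂ) r) := by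
      rw [Complex.add_conj]
      push_cast
      ring
    rw [e1]
    exact mul_mem h20 (add_mem h1 h2)

lemma galois_MM : IsGalois ℚ (MM z) := by
  have h1 : (minpoly ℚ z * (X ^ 2 + 1) : ℚ[X]).IsSplittingField ℚ (MM z) :=
    adjoin_rootSet_isSplittingField (IsAlgClosed.splits _)
  have h2 : Normal ℚ (MM z) := Normal.of_isSplittingField (minpoly ℚ z * (X ^ 2 + 1) : ℚ[X])
  have : Algebra.IsAlgebraic ℚ (MM z) := h2.toIsAlgebraic
  exact ⟨⟩

lemma alg_root (s : ℂ)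
    (hs : s ∈ (minpoly ℚ z * (X ^ 2 + 1) : ℚ[X]).rootSet ℂ) : IsAlgebraic ℚ s := by
  rw [mem_rootSet] at hs
  exact ⟨_, hs.1, hs.2⟩

lemma nf_MM : NumberField (MM z) :=
  nf_adjoin_complex _ (rootSet_finite _ _) (alg_root z)

/-- the inclusion of the real field -/
noncomputable def jmap (hz : IsAlgebraic ℚ z) : FF z →+* MM z where
  toFun c := ⟨((c : ℝ) : ℂ), FF_le z hz c.2⟩
  map_one' := by ext; simp
  map_mul' := by intro a b; ext; simp
  map_zero' := by ext; simp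
  map_add' := by intro a b; ext; simp

lemma jmap_coe (hz : IsAlgebraic ℚ z) (c : FF z) : ((jmap z hz c : MM z) : ℂ) = ((c : ℝ) : ℂ) := rfl

lemma nf_FF (hz : IsAlgebraic ℚ z) : NumberField (FF z) := by
  have h1 := nf_MM z
  have : Finite ((minpoly ℚ z).rootSet ℂ) := rootSet_finite _ _
  apply nf_adjoin_real _ (Set.finite_range _)
  intro s hs
  have h2 : s ∈ FF z := subset_adjoin ℚ _ hs
  have h3 : IsAlgebraic ℚ (jmap z hz ⟨s, h2⟩ : MM z) := Algebra.IsAlgebraic.isAlgebraic _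
  have h4 : IsAlgebraic ℚ ((jmap z hz ⟨s, h2⟩ : MM z) : ℂ) := h3.algebraMap
  rw [jmap_coe] at h4
  obtain ⟨f, hf, hf2⟩ := h4
  refine ⟨f, hf, ?_⟩
  have h5 : (aeval ((Complex.ofRealAm.restrictScalars ℚ) s)) f =
      (Complex.ofRealAm.restrictScalars ℚ) ((aeval s) f) :=
    Polynomial.aeval_algHom_apply (Complex.ofRealAm.restrictScalars ℚ) _ _
  have h6 : (aeval ((Complex.ofRealAm.restrictScalars ℚ) s)) f = 0 := hf2
  rw [h6] at h5
  have h7 : (((aeval s) f : ℝ) : ℂ) = 0 := h5.symm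
  exact_mod_cast h7

lemma conj_mem (hz : IsAlgebraic ℚ z) (y : ℂ) (hy : y ∈ MM z) : (starRingEnd ℂ) y ∈ MM z := by
  have h1 := MM_le z hz hy
  have h2 : ((y.re : ℝ) : ℂ) ∈ MM z := FF_le z hz h1.1
  have h3 : ((y.im : ℝ) : ℂ) ∈ MM z := FF_le z hz h1.2
  have h4 : (starRingEnd ℂ) y = (y.re : ℂ) - Complex.I * (y.im : ℂ) := by
    apply Complex.ext <;> simp
  rw [h4]
  exact sub_mem h2 (mul_mem (I_mem z hz) h3)

/-- complex conjugation -/
noncomputable def tau (hz : IsAlgebraic ℚ z) : MM z →+* MM z where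
  toFun y := ⟨(starRingEnd ℂ) (y : ℂ), conj_mem z hz _ y.2⟩
  map_one' := by ext; simp
  map_mul' := by intro a b; ext; simp
  map_zero' := by ext; simp
  map_add' := by intro a b; ext; simp

lemma tau_coe (hz : IsAlgebraic ℚ z) (y : MM z) :
    ((tau z hz y : MM z) : ℂ) = (starRingEnd ℂ) (y : ℂ) := rfl

lemma trace_exists (hz : IsAlgebraic ℚ z) [NumberField (MM z)] [NumberField (FF z)]
    (y : 𝓞 (MM z)) : ∃ a : 𝓞 (FF z), RingOfIntegers.mapRingHom (jmap z hz) a =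
      y + RingOfIntegers.mapRingHom (tau z hz) y := by
  have h1 := MM_le z hz (y : MM z).2
  have h2 : 2 * ((y : MM z) : ℂ).re ∈ FF z := mul_mem (_root_.natCast_mem (FF z) 2) h1.1
  set c : FF z := ⟨2 * ((y : MM z) : ℂ).re, h2⟩ with hc
  have h3 : jmap z hz c = ((y + RingOfIntegers.mapRingHom (tau z hz) y : 𝓞 (MM z)) : MM z) := by
    apply Subtype.ext
    show ((2 * ((y : MM z) : ℂ).re : ℝ) : ℂ) = ((y : MM z) : ℂ) + (starRingEnd ℂ) ((y : MM z) : ℂ)
    rw [Complex.add_conj]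
  have h4 : IsIntegral ℤ (jmap z hz c) := by
    rw [h3]; exact RingOfIntegers.isIntegral_coe _
  have h5 : IsIntegral ℤ c := by
    have := isIntegral_algHom_iff (jmap z hz).toIntAlgHom (jmap z hz).injective (x := c)
    exact this.1 h4
  refine ⟨⟨c, h5⟩, ?_⟩
  apply RingOfIntegers.coe_injective
  exact h3

theorem joint_complex (hz : IsAlgebraic ℚ z) (p : ℕ) (hp : p.Prime) (hp2 : p ≠ 2)
    (P : Ideal (𝓞 ℚ⟮z⟯)) (hP : P.IsPrime) (hpP0 : (p : 𝓞 ℚ⟮z⟯) ∈ P)
    (hpP : (p : 𝓞 ℚ⟮z⟯) ∈ P ^ 2) (b : ℕ) (hb : 2 ≤ b) (hpb : ¬ p ∣ b) :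
    JointlyFail (reIm z) b := by
  have hg := galois_MM z
  have hnf := nf_MM z
  have hnf2 := nf_FF z hz
  have hnf3 : NumberField ℚ⟮z⟯ := nf_simple_complex z hz
  have hzz : z ∈ (minpoly ℚ z).rootSet ℂ := by
    rw [mem_rootSet]
    exact ⟨minpoly.ne_zero hz.isIntegral, minpoly.aeval ℚ z⟩
  have hle : ℚ⟮z⟯ ≤ MM z := by
    rw [adjoin_simple_le_iff]
    exact root_mem z hz z hzz
  refine joint_of_ram _ (FF z) rfl (FF z) (RingHom.id _) p hp ?_ b hb hpb
  intro Q hQ hpQ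
  have hI : IsIntegral ℤ (⟨Complex.I, I_mem z hz⟩ : MM z) := by
    refine ⟨X ^ 2 + 1, by monicity!, ?_⟩
    apply Subtype.ext
    simp
  refine ram_descend (MM z) (FF z) (jmap z hz) (RingOfIntegers.mapRingHom (tau z hz)) ?_
    ⟨⟨Complex.I, I_mem z hz⟩, hI⟩ ?_ ?_ (trace_exists z hz) p hp hp2 ?_ Q hQ hpQ
  · intro y
    apply RingOfIntegers.coe_injective
    apply Subtype.ext
    show (starRingEnd ℂ) ((starRingEnd ℂ) ((y : MM z) : ℂ)) = ((y : MM z) : ℂ)
    exact Complex.conj_conj _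
  · apply RingOfIntegers.coe_injective
    apply Subtype.ext
    show Complex.I * Complex.I = _
    simp
  · apply RingOfIntegers.coe_injective
    apply Subtype.ext
    show (starRingEnd ℂ) Complex.I = - Complex.I
    simp
  · intro P' hP' hpP'
    exact all_ram _ _ (inclusion hle : ℚ⟮z⟯ →+* _) p hp P hP hpP0 hpP P' hP' hpP'

end complex

end Pool.Agent.N549.JC
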