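import Pool.Agent.N549.JC.Conj

/-!
The usual digits.
-/

set_option autoImplicit false

namespace Pool.Agent.N549.JC

open Polynomial Finset Filter Pool.Agent.H323R2

/-- the `k`-th base `b` digit of `x` after the point -/
noncomputable def digit (x : ℝ) (b k : ℕ) : ℤ := ⌊x * (b : ℝ) ^ k⌋ % (b : ℤ)

/-- the usual expansion, with the integer part as its term of index `0` -/
noncomputable def usual (x : ℝ) (b : ℕ) : ℕ → ℤ
  | 0 => ⌊x⌋
  | k + 1 => digit x b (k + 1)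

lemma usual_partial (x : ℝ) (b : ℕ) (hb : 2 ≤ b) (K : ℕ) :
    ∑ k ∈ range (K + 1), (usual x b k : ℝ) / (b : ℝ) ^ k = (⌊x * (b : ℝ) ^ K⌋ : ℝ) / (b : ℝ) ^ K := by
  have hb0 : (b : ℝ) ≠ 0 := by positivity
  induction K with
  | zero => simp [usual]
  | succ K ih =>
    rw [Finset.sum_range_succ, ih, usual, digit, digit_eq b hb]
    push_cast
    rw [pow_succ]
    field_simp
    ring

lemma usual_bound (x : ℝ) (b : ℕ) (hb : 2 ≤ b) (k : ℕ) : |usual x b k| ≤ |⌊x⌋| + b := by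
  have hb0 : (0 : ℤ) < b := by exact_mod_cast (by omega : 0 < b)
  rcases k with _ | k
  · simp only [usual]; linarith
  · simp only [usual, digit]
    rw [abs_of_nonneg (Int.emod_nonneg _ hb0.ne')]
    have h1 := Int.emod_lt_of_pos ⌊x * (b : ℝ) ^ (k + 1)⌋ hb0
    have h2 := abs_nonneg ⌊x⌋
    linarith

lemma usual_hasSum (x : ℝ) (b : ℕ) (hb : 2 ≤ b) :
    HasSum (fun k : ℕ => (usual x b k : ℝ) / (b : ℝ) ^ k) x := by
  have hb0 : (0 : ℝ) < b := by positivity
  have hb2 : (2 : ℝ) ≤ b := by exact_mod_cast hb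
  have hsum : Summable (fun k : ℕ => (usual x b k : ℝ) / (b : ℝ) ^ k) := by
    have hgeo : Summable (fun k : ℕ => ((|⌊x⌋| + b : ℤ) : ℝ) * (1 / 2) ^ k) :=
      summable_geometric_two.mul_left _
    refine Summable.of_norm_bounded hgeo ?_
    intro k
    rw [Real.norm_eq_abs, abs_div, abs_of_pos (pow_pos hb0 _)]
    have h3 : |(usual x b k : ℝ)| ≤ ((|⌊x⌋| + b : ℤ) : ℝ) := by
      exact_mod_cast usual_bound x b hb k
    have h4 : (2 : ℝ) ^ k ≤ (b : ℝ) ^ k := pow_le_pow_left₀ (by norm_num) hb2 k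
    have h5 : (0 : ℝ) ≤ ((|⌊x⌋| + b : ℤ) : ℝ) := (abs_nonneg _).trans h3
    rw [one_div_pow, div_eq_mul_one_div]
    gcongr
  rw [hsum.hasSum_iff_tendsto_nat, ← tendsto_add_atTop_iff_nat 1]
  have h1 : (fun K : ℕ => ∑ k ∈ range (K + 1), (usual x b k : ℝ) / (b : ℝ) ^ k) =
      fun K : ℕ => x - (x - (⌊x * (b : ℝ) ^ K⌋ : ℝ) / (b : ℝ) ^ K) := by
    ext K
    rw [usual_partial x b hb K]; ring
  rw [h1]
  have h2 : Tendsto (fun K : ℕ => x - (⌊x * (b : ℝ) ^ K⌋ : ℝ) / (b : ℝ) ^ K) atTop (nhds 0) := by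
    have h3 : Tendsto (fun K : ℕ => ((1 : ℝ) / 2) ^ K) atTop (nhds 0) :=
      tendsto_pow_atTop_nhds_zero_of_lt_one (by norm_num) (by norm_num)
    refine squeeze_zero' (Eventually.of_forall fun K => ?_) (Eventually.of_forall fun K => ?_) h3
    · have h4 : (⌊x * (b : ℝ) ^ K⌋ : ℝ) ≤ x * (b : ℝ) ^ K := Int.floor_le _
      have h5 : (⌊x * (b : ℝ) ^ K⌋ : ℝ) / (b : ℝ) ^ K ≤ x := by
        rw [div_le_iff₀ (pow_pos hb0 K)]; exact h4
      linarith
    · have h4 : x * (b : ℝ) ^ K < (⌊x * (b : ℝ) ^ K⌋ : ℝ) + 1 := Int.lt_floor_add_one _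
      have h5 : x - (⌊x * (b : ℝ) ^ K⌋ : ℝ) / (b : ℝ) ^ K ≤ 1 / (b : ℝ) ^ K := by
        have : x - (⌊x * (b : ℝ) ^ K⌋ : ℝ) / (b : ℝ) ^ K =
            (x * (b : ℝ) ^ K - (⌊x * (b : ℝ) ^ K⌋ : ℝ)) / (b : ℝ) ^ K := by
          field_simp
        rw [this]
        gcongr
        linarith
      refine h5.trans ?_
      rw [one_div_pow]
      have h4 : (2 : ℝ) ^ K ≤ (b : ℝ) ^ K := pow_le_pow_left₀ (by norm_num) hb2 K
      gcongr
  have h3 := (tendsto_const_nhds (x := x)).sub h2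
  simpa using h3

/-- For every linear relation `q_0 a_k + … + q_m a_{k+m} = e` with integer coefficients and
`q_0 + q_1 b + … + q_m b^m ≠ 0` there are one `i` and `c, δ > 0` such that for infinitely many `N`
the relation fails for at least `c N^δ` of the positions `1 ≤ k ≤ N` in the usual base `b`
expansion of `x i`. -/
def OneFailsOften {ι : Type} (x : ι → ℝ) (b : ℕ) : Prop :=
  ∀ (m : ℕ) (q : ℕ → ℤ) (e : ℤ), ∑ j ∈ range (m + 1), q j * (b : ℤ) ^ j ≠ 0 →
    ∃ (i : ι) (c δ : ℝ), 0 < c ∧ 0 < δ ∧ ∃ᶠ N : ℕ in atTop, c * (N : ℝ) ^ δ ≤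
      (((range N).filter (fun k : ℕ =>
        ∑ j ∈ range (m + 1), q j * digit (x i) b (k + 1 + j) ≠ e)).card : ℝ)

theorem one_of_joint {ι : Type} [Fintype ι] (x : ι → ℝ) (b : ℕ) (hb : 2 ≤ b)
    (h : JointlyFail x b) : OneFailsOften x b := by
  intro m q e hq
  obtain ⟨c, δ, hc, hδ, hev⟩ := h (fun i => usual (x i) b) (∑ i, (|⌊x i⌋| + b))
    (by
      intro i k
      refine (usual_bound (x i) b hb k).trans ?_
      exact Finset.single_le_sum (f := fun i => |⌊x i⌋| + (b : ℤ))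
        (fun j _ => by positivity) (Finset.mem_univ i))
    (fun i => usual_hasSum (x i) b hb) m (fun _ => q) (fun _ => e) (fun _ => hq)
  by_contra hcon
  push Not at hcon
  set n : ℝ := ((Fintype.card ι : ℕ) : ℝ) with hn
  have hn0 : 0 ≤ n := by positivity
  have h1 : ∀ i : ι, ∀ᶠ N : ℕ in atTop,
      (((range N).filter (fun k : ℕ =>
        ∑ j ∈ range (m + 1), q j * digit (x i) b (k + 1 + j) ≠ e)).card : ℝ) <
        (c / (n + 1)) * (N : ℝ) ^ δ := by
    intro i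
    exact hcon i (c / (n + 1)) δ (by positivity) hδ
  rw [← Filter.eventually_all] at h1
  obtain ⟨N, hN1, hN2, hN3⟩ := (h1.and (hev.and (eventually_ge_atTop 1))).exists
  have h2 : ((∑ i, ((range N).filter (fun k : ℕ =>
          ∑ j ∈ range (m + 1), q j * usual (x i) b (k + 1 + j) ≠ e)).card : ℕ) : ℝ) ≤
      n * ((c / (n + 1)) * (N : ℝ) ^ δ) := by
    push_cast
    calc ∑ i, (((range N).filter (fun k : ℕ =>
          ∑ j ∈ range (m + 1), q j * usual (x i) b (k + 1 + j) ≠ e)).card : ℝ)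
        ≤ ∑ _i : ι, ((c / (n + 1)) * (N : ℝ) ^ δ) := by
          apply Finset.sum_le_sum
          intro i _
          have h4 := (hN1 i).le
          have h5 : ∀ k j, usual (x i) b (k + 1 + j) = digit (x i) b (k + 1 + j) := by
            intro k j
            rw [show k + 1 + j = k + j + 1 by ring, usual]
          simp_rw [h5]
          exact h4
      _ = n * ((c / (n + 1)) * (N : ℝ) ^ δ) := by
          rw [Finset.sum_const, nsmul_eq_mul, Finset.card_univ]
  have h3 := hN2.trans h2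
  have hNpos : (0 : ℝ) < (N : ℝ) ^ δ := by
    apply Real.rpow_pos_of_pos
    exact_mod_cast hN3
  have h4 : n * ((c / (n + 1)) * (N : ℝ) ^ δ) < c * (N : ℝ) ^ δ := by
    have h5 : n * (c / (n + 1)) < c := by
      rw [mul_div_assoc', div_lt_iff₀ (by positivity)]
      nlinarith
    have := mul_lt_mul_of_pos_right h5 hNpos
    linarith
  linarith

end Pool.Agent.N549.JC
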