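import Pool.Agent.N549.JC.Mink
import Pool.Agent.N549.JC.Std

/-!
Every algebraic number outside `ℚ(i)`.
-/

set_option autoImplicit false

namespace Pool.Agent.N549.JC

open Polynomial Pool.Agent.H323R2 NumberField IntermediateField

variable (z : ℂ)

lemma norm_exists (hz : IsAlgebraic ℚ z) [NumberField (MM z)] [NumberField (FF z)]
    (y : 𝓞 (MM z)) : ∃ a : 𝓞 (FF z), RingOfIntegers.mapRingHom (jmap z hz) a =
      y * RingOfIntegers.mapRingHom (tau z hz) y := by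
  have h1 := MM_le z hz (y : MM z).2
  have h2 : Complex.normSq ((y : MM z) : ℂ) ∈ FF z := by
    rw [Complex.normSq_apply]
    exact add_mem (mul_mem h1.1 h1.1) (mul_mem h1.2 h1.2)
  set c : FF z := ⟨Complex.normSq ((y : MM z) : ℂ), h2⟩ with hc
  have h3 : jmap z hz c = ((y * RingOfIntegers.mapRingHom (tau z hz) y : 𝓞 (MM z)) : MM z) := by
    apply Subtype.ext
    show ((Complex.normSq ((y : MM z) : ℂ) : ℝ) : ℂ) =
      ((y : MM z) : ℂ) * (starRingEnd ℂ) ((y : MM z) : ℂ)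
    rw [Complex.mul_conj]
  have h4 : IsIntegral ℤ (jmap z hz c) := by
    rw [h3]; exact RingOfIntegers.isIntegral_coe _
  have h5 : IsIntegral ℤ c := by
    have := isIntegral_algHom_iff (jmap z hz).toIntAlgHom (jmap z hz).injective (x := c)
    exact this.1 h4
  refine ⟨⟨c, h5⟩, ?_⟩
  apply RingOfIntegers.coe_injective
  exact h3

lemma I_le (hz : IsAlgebraic ℚ z) : ℚ⟮Complex.I⟯ ≤ MM z := by
  rw [adjoin_simple_le_iff]; exact I_mem z hz

lemma algI : IsAlgebraic ℚ Complex.I := by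
  refine ⟨X ^ 2 + 1, ?_, by simp⟩
  have : (X ^ 2 + 1 : ℚ[X]) = X ^ 2 + C 1 := by simp
  rw [this]
  exact X_pow_add_C_ne_zero (by norm_num) _

lemma cyc : IsCyclotomicExtension {2 ^ 2} ℚ ℚ⟮Complex.I⟯ := by
  have h1 : IsPrimitiveRoot Complex.I (2 ^ 2) := Complex.isPrimitiveRoot_I
  change IsCyclotomicExtension {2 ^ 2} ℚ (ℚ⟮Complex.I⟯).toSubalgebra
  rw [adjoin_simple_toSubalgebra_of_isAlgebraic algI]
  exact h1.adjoin_isCyclotomicExtension ℚ

theorem exists_prime_complex (hz : IsAlgebraic ℚ z)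
    (hz' : ¬ ((∃ a : ℚ, z.re = a) ∧ ∃ b : ℚ, z.im = b)) :
    ∃ p : ℕ, p.Prime ∧ ∀ b : ℕ, 2 ≤ b → ¬ p ∣ b → JointlyFail (reIm z) b := by
  by_contra hcon
  push Not at hcon
  have hg := galois_MM z
  have hnf := nf_MM z
  have hnf2 := nf_FF z hz
  have hF : ∀ p : ℕ, p.Prime → ∃ P : Ideal (𝓞 (FF z)), P.IsPrime ∧ (p : 𝓞 (FF z)) ∈ P ∧
      (p : 𝓞 (FF z)) ∉ P ^ 2 := by
    intro p hp
    obtain ⟨b, hb, hpb, hnot⟩ := hcon p hp
    by_contra h
    push Not at h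
    exact hnot (joint_of_ram _ (FF z) rfl (FF z) (RingHom.id _) p hp h b hb hpb)
  have htau : ∀ y : 𝓞 (MM z), RingOfIntegers.mapRingHom (tau z hz)
      (RingOfIntegers.mapRingHom (tau z hz) y) = y := by
    intro y
    apply RingOfIntegers.coe_injective
    apply Subtype.ext
    show (starRingEnd ℂ) ((starRingEnd ℂ) ((y : MM z) : ℂ)) = ((y : MM z) : ℂ)
    exact Complex.conj_conj _
  have hII : IsIntegral ℤ (⟨Complex.I, I_mem z hz⟩ : MM z) := by
    refine ⟨X ^ 2 + 1, by monicity!, ?_⟩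
    apply Subtype.ext
    simp
  have ha : ∀ p : ℕ, p.Prime → p ≠ 2 → ∀ P' : Ideal (𝓞 (MM z)), P'.IsPrime →
      (p : 𝓞 (MM z)) ∈ P' → (p : 𝓞 (MM z)) ∉ P' ^ 2 := by
    intro p hp hp2 P' hP' hpP' hsq
    obtain ⟨P, hP, hpP, hpP2⟩ := hF p hp
    apply hpP2
    refine ram_descend (MM z) (FF z) (jmap z hz) (RingOfIntegers.mapRingHom (tau z hz)) htau
      ⟨⟨Complex.I, I_mem z hz⟩, hII⟩ ?_ ?_ (trace_exists z hz) p hp hp2 ?_ P hP hpP
    · apply RingOfIntegers.coe_injective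
      apply Subtype.ext
      show Complex.I * Complex.I = _
      simp
    · apply RingOfIntegers.coe_injective
      apply Subtype.ext
      show (starRingEnd ℂ) Complex.I = - Complex.I
      simp
    · intro Q hQ hpQ
      exact gal_pow _ p hp 2 P' hP' hpP' hsq Q hQ hpQ
  have hb : ∀ P' : Ideal (𝓞 (MM z)), P'.IsPrime → ((2 : ℕ) : 𝓞 (MM z)) ∈ P' →
      ((2 : ℕ) : 𝓞 (MM z)) ∉ P' ^ 3 := by
    intro P' hP' hpP' hcube
    obtain ⟨P, hP, hpP, hpP2⟩ := hF 2 Nat.prime_two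
    obtain ⟨Q, hQ, hQ2, hQ3⟩ := ram_descend_two (MM z) (FF z) (jmap z hz)
      (RingOfIntegers.mapRingHom (tau z hz)) htau (trace_exists z hz) (norm_exists z hz) 2
      Nat.prime_two P hP hpP hpP2
    exact hQ3 (gal_pow _ 2 Nat.prime_two 3 P' hP' hpP' hcube Q hQ hQ2)
  have hcyc := cyc
  have hnfI : NumberField ℚ⟮Complex.I⟯ := nf_simple_complex _ algI
  let _ : Algebra ℚ⟮Complex.I⟯ (MM z) := (inclusion (I_le z hz)).toRingHom.toAlgebra
  have hd : (discr ℚ⟮Complex.I⟯).natAbs = 4 := by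
    have : Fact (Nat.Prime 2) := ⟨Nat.prime_two⟩
    have h1 := IsCyclotomicExtension.Rat.discr_prime_pow 2 2 ℚ⟮Complex.I⟯
    rw [h1]
    norm_num
    decide
  have hrank : Module.finrank ℚ ℚ⟮Complex.I⟯ = 2 := by
    have h1 := IsCyclotomicExtension.Rat.finrank (2 ^ 2) ℚ⟮Complex.I⟯
    rw [h1]
    decide
  have hII2 : IsIntegral ℤ (⟨Complex.I, mem_adjoin_simple_self ℚ _⟩ : ℚ⟮Complex.I⟯) := by
    refine ⟨X ^ 2 + 1, by monicity!, ?_⟩
    apply Subtype.ext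
    simp
  have hone := unram_trivial ℚ⟮Complex.I⟯ (MM z) hd hrank
    ⟨⟨Complex.I, mem_adjoin_simple_self ℚ _⟩, hII2⟩ (by
      apply RingOfIntegers.coe_injective
      apply Subtype.ext
      show Complex.I * Complex.I = _
      simp) ha hb
  rw [Algebra.finrank_eq_one_iff_bijective_algebraMap] at hone
  have hzM : z ∈ MM z := by
    apply root_mem z hz
    rw [mem_rootSet]
    exact ⟨minpoly.ne_zero hz.isIntegral, minpoly.aeval ℚ z⟩
  obtain ⟨k, hk⟩ := hone.2 ⟨z, hzM⟩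
  have hzI : z ∈ ℚ⟮Complex.I⟯ := by
    have : (k : ℂ) = z := congrArg Subtype.val hk
    rw [← this]; exact k.2
  have hle : ℚ⟮Complex.I⟯ ≤ cfield ⊥ := by
    rw [adjoin_simple_le_iff]
    refine ⟨?_, ?_⟩
    · rw [Complex.I_re]; exact zero_mem _
    · rw [Complex.I_im]; exact one_mem _
  obtain ⟨h1, h2⟩ := hle hzI
  rw [mem_bot] at h1 h2
  obtain ⟨a, ha'⟩ := h1
  obtain ⟨b, hb'⟩ := h2
  exact hz' ⟨⟨a, ha'.symm⟩, ⟨b, hb'.symm⟩⟩

end Pool.Agent.N549.JC
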