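import Pool.Agent.N549.JC.Gal

/-!
Ramification above odd primes descends from `F(i)` to `F`.
-/

set_option autoImplicit false

namespace Pool.Agent.N549.JC

open Polynomial Pool.Agent.H323R2 NumberField IntermediateField

theorem ram_descend (M F : Type) [Field M] [NumberField M] [Field F] [NumberField F] (j : F →+* M)
    (τ : 𝓞 M →+* 𝓞 M) (hτ : ∀ y, τ (τ y) = y) (i : 𝓞 M) (hi : i * i = -1) (hτi : τ i = -i)
    (htr : ∀ y : 𝓞 M, ∃ a : 𝓞 F, RingOfIntegers.mapRingHom j a = y + τ y)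
    (p : ℕ) (hp : p.Prime) (hp2 : p ≠ 2)
    (h : ∀ P' : Ideal (𝓞 M), P'.IsPrime → (p : 𝓞 M) ∈ P' → (p : 𝓞 M) ∈ P' ^ 2)
    (P : Ideal (𝓞 F)) (hP : P.IsPrime) (hpP : (p : 𝓞 F) ∈ P) : (p : 𝓞 F) ∈ P ^ 2 := by
  by_contra hcon
  set J : 𝓞 F →+* 𝓞 M := RingOfIntegers.mapRingHom j with hJ
  obtain ⟨P', hP', hPP'⟩ := exists_above M F j P hP
  have hpP' : (p : 𝓞 M) ∈ P' := by
    have : (p : 𝓞 F) ∈ P'.comap J := by rw [hPP']; exact hpP
    rw [Ideal.mem_comap, map_natCast] at this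
    exact this
  have hp0 : (p : 𝓞 M) ≠ 0 := by exact_mod_cast hp.ne_zero
  -- the prime-to-`P` part of `p`
  obtain ⟨A, hA⟩ := Ideal.dvd_iff_le.2 ((Ideal.span_singleton_le_iff_mem P).2 hpP)
  have hAP : ¬ A ≤ P := by
    intro hle
    apply hcon
    have h1 : Ideal.span {(p : 𝓞 F)} ≤ P ^ 2 := by
      rw [hA, pow_two]
      exact Ideal.mul_mono le_rfl hle
    exact h1 (Ideal.mem_span_singleton_self _)
  obtain ⟨s, hsA, hsP⟩ := Set.not_subset.1 hAP
  have hs : ∀ a ∈ P, ∃ c : 𝓞 F, s * a = p * c := by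
    intro a ha
    have h1 : s * a ∈ Ideal.span {(p : 𝓞 F)} := by
      rw [hA, mul_comm s a]
      exact Ideal.mul_mem_mul ha hsA
    rw [Ideal.mem_span_singleton] at h1
    exact h1
  -- the element `t`
  obtain ⟨t, htP, ht⟩ : ∃ t : 𝓞 M, t ∉ P' ∧ ∀ y ∈ P', t * y ∈ P' ∧ τ (t * y) ∈ P' := by
    by_cases hc : ∃ t : 𝓞 M, t ∉ P' ∧ τ t ∈ P'
    · obtain ⟨t, h1, h2⟩ := hc
      refine ⟨t, h1, fun y hy => ⟨P'.mul_mem_left _ hy, ?_⟩⟩
      rw [map_mul]
      exact P'.mul_mem_right _ h2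
    · push Not at hc
      refine ⟨1, fun h1 => hP'.ne_top ((Ideal.eq_top_iff_one _).2 h1), fun y hy => ?_⟩
      rw [one_mul]
      refine ⟨hy, ?_⟩
      by_contra h1
      exact hc (τ y) h1 (by rw [hτ]; exact hy)
  have hkey : ∀ y ∈ P', (2 * J s * t) * y ∈ Ideal.span {(p : 𝓞 M)} := by
    intro y hy
    obtain ⟨h1, h2⟩ := ht y hy
    obtain ⟨a, ha⟩ := htr (t * y)
    obtain ⟨b, hb⟩ := htr (i * (t * y))
    have haP : a ∈ P := by
      rw [← hPP', Ideal.mem_comap, ha]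
      exact P'.add_mem h1 h2
    have hbP : b ∈ P := by
      rw [← hPP', Ideal.mem_comap, hb, map_mul]
      exact P'.add_mem (P'.mul_mem_left _ h1) (P'.mul_mem_left _ h2)
    obtain ⟨a', ha'⟩ := hs a haP
    obtain ⟨b', hb'⟩ := hs b hbP
    have e1 : 2 * (t * y) = J a - i * J b := by
      rw [ha, hb, map_mul τ i (t * y), hτi]
      linear_combination (t * y - τ (t * y)) * hi
    have e2 : (2 * J s * t) * y = p * (J a' - i * J b') := by
      have e3 : J s * J a = p * J a' := by rw [← map_mul, ha', map_mul, map_natCast]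
      have e4 : J s * J b = p * J b' := by rw [← map_mul, hb', map_mul, map_natCast]
      linear_combination J s * e1 + e3 - i * e4
    rw [e2, Ideal.mem_span_singleton]
    exact dvd_mul_right _ _
  have h1 : Ideal.span {2 * J s * t} * P' ≤ Ideal.span {(p : 𝓞 M)} := by
    rw [Ideal.span_singleton_mul_le_iff]
    exact hkey
  have h2 : (Ideal.span {2 * J s * t} * P') ^ 2 ≤ Ideal.span {(p : 𝓞 M)} ^ 2 :=
    Ideal.pow_right_mono h1 2
  have h3 : (2 * J s * t) ^ 2 * p ∈ Ideal.span {(p : 𝓞 M)} ^ 2 := by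
    apply h2
    rw [mul_pow]
    exact Ideal.mul_mem_mul (Ideal.pow_mem_pow (Ideal.mem_span_singleton_self _) 2)
      (h P' hP' hpP')
  rw [Ideal.span_singleton_pow, Ideal.mem_span_singleton] at h3
  obtain ⟨c, hc⟩ := h3
  have h4 : (2 * J s * t) ^ 2 = p * c := by
    apply mul_right_cancel₀ hp0
    rw [hc]; ring
  have h5 : (2 * J s * t) ^ 2 ∈ P' := by
    rw [h4]; exact P'.mul_mem_right _ hpP'
  have h6 := hP'.mem_of_pow_mem 2 h5
  rcases hP'.mem_or_mem h6 with h7 | h7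
  · rcases hP'.mem_or_mem h7 with h8 | h8
    · -- `2 ∈ P'`
      have hodd : Odd p := hp.odd_of_ne_two hp2
      obtain ⟨k, hk⟩ := hodd
      apply hP'.ne_top
      rw [Ideal.eq_top_iff_one]
      have : (1 : 𝓞 M) = p - 2 * k := by rw [hk]; push_cast; ring
      rw [this]
      exact P'.sub_mem hpP' (P'.mul_mem_right _ h8)
    · apply hsP
      have : s ∈ P'.comap J := h8
      rw [hPP'] at this
      exact this
  · exact htP h7

end Pool.Agent.N549.JC
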