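import Pool.Agent.N549.JC.Prim

/-!
Ramified primes and Galois closures.
-/

set_option autoImplicit false

namespace Pool.Agent.N549.JC

open Polynomial Pool.Agent.H323R2 NumberField IntermediateField
open scoped Pointwise

/-- a prime above a given prime -/
lemma exists_above (E L : Type) [Field E] [NumberField E] [Field L] [NumberField L]
    (φ : L →+* E) (P : Ideal (𝓞 L)) (hP : P.IsPrime) :
    ∃ P' : Ideal (𝓞 E), P'.IsPrime ∧ P'.comap (RingOfIntegers.mapRingHom φ) = P := by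
  let _ : Algebra (𝓞 L) (𝓞 E) := (RingOfIntegers.mapRingHom φ).toAlgebra
  have hinj : Function.Injective (RingOfIntegers.mapRingHom φ) := by
    intro x y hxy
    have h1 : (RingOfIntegers.mapRingHom φ x : E) = (RingOfIntegers.mapRingHom φ y : E) := by
      rw [hxy]
    have h2 : φ (x : L) = φ (y : L) := h1
    exact RingOfIntegers.coe_injective (φ.injective h2)
  have hint : Algebra.IsIntegral (𝓞 L) (𝓞 E) := by
    constructor
    intro x
    have h1 : IsIntegral ℤ x := RingOfIntegers.isIntegral x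
    exact h1.tower_top
  obtain ⟨Q, -, hQ, hQP⟩ := Ideal.exists_ideal_over_prime_of_isIntegral P (⊥ : Ideal (𝓞 E)) (by
    intro x hx
    rw [Ideal.mem_comap, Ideal.mem_bot] at hx
    have : x = 0 := hinj (by rw [map_zero]; exact hx)
    rw [this]; exact P.zero_mem)
  exact ⟨Q, hQ, hQP⟩

/-- In a Galois number field containing a number field with a ramified prime above `p` all primes
above `p` are ramified. -/
theorem all_ram (E L : Type) [Field E] [NumberField E] [IsGalois ℚ E] [Field L] [NumberField L]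
    (φ : L →+* E) (p : ℕ) (hp : p.Prime) (P : Ideal (𝓞 L)) (hP : P.IsPrime) (hpP0 : (p : 𝓞 L) ∈ P)
    (hpP : (p : 𝓞 L) ∈ P ^ 2) (Q : Ideal (𝓞 E)) (hQ : Q.IsPrime) (hpQ : (p : 𝓞 E) ∈ Q) :
    (p : 𝓞 E) ∈ Q ^ 2 := by
  obtain ⟨P', hP', hPP'⟩ := exists_above E L φ P hP
  have hpr : Prime (p : ℤ) := Nat.prime_iff_prime_int.1 hp
  have h1 : (p : 𝓞 E) ∈ P' ^ 2 := by
    have h2 : (RingOfIntegers.mapRingHom φ) (p : 𝓞 L) ∈ (P ^ 2).map (RingOfIntegers.mapRingHom φ) :=
      Ideal.mem_map_of_mem _ hpP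
    rw [map_natCast, Ideal.map_pow] at h2
    apply Ideal.pow_right_mono _ 2 h2
    rw [Ideal.map_le_iff_le_comap, hPP']
  have hpP' : (p : 𝓞 E) ∈ P' := by
    have : (p : 𝓞 L) ∈ P'.comap (RingOfIntegers.mapRingHom φ) := by rw [hPP']; exact hpP0
    rw [Ideal.mem_comap] at this
    rwa [map_natCast] at this
  have hlo : P'.LiesOver (Ideal.span {(p : ℤ)}) :=
    (Ideal.liesOver_span_iff hP'.ne_top hpr).mpr (by simpa using hpP')
  have hlo2 : Q.LiesOver (Ideal.span {(p : ℤ)}) :=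
    (Ideal.liesOver_span_iff hQ.ne_top hpr).mpr (by simpa using hpQ)
  obtain ⟨σ, hσ⟩ := Ideal.exists_smul_eq_of_isGaloisGroup (Ideal.span {(p : ℤ)}) P' Q Gal(E/ℚ)
  have h3 : σ • (p : 𝓞 E) ∈ σ • (P' ^ 2) := Ideal.smul_mem_pointwise_smul σ _ _ h1
  have h4 : σ • (p : 𝓞 E) = (p : 𝓞 E) := map_natCast (MulSemiringAction.toRingHom _ _ σ) p
  have h5 : σ • (P' ^ 2) = (σ • P') ^ 2 := by
    rw [Ideal.pointwise_smul_def, Ideal.map_pow, Ideal.pointwise_smul_def]
  rw [h4, h5, hσ] at h3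
  exact h3

end Pool.Agent.N549.JC
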