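import Pool.Agent.N549.JC.Two

/-!
`ℚ(i)` has no extension unramified at all primes (Minkowski).
-/

set_option autoImplicit false

namespace Pool.Agent.N549.JC

open Polynomial Pool.Agent.H323R2 NumberField IntermediateField
open scoped Pointwise Real

theorem gal_pow (E : Type) [Field E] [NumberField E] [IsGalois ℚ E]
    (p : ℕ) (hp : p.Prime) (n : ℕ) (P' : Ideal (𝓞 E)) (hP' : P'.IsPrime) (hpP' : (p : 𝓞 E) ∈ P')
    (h1 : (p : 𝓞 E) ∈ P' ^ n) (Q : Ideal (𝓞 E)) (hQ : Q.IsPrime) (hpQ : (p : 𝓞 E) ∈ Q) :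
    (p : 𝓞 E) ∈ Q ^ n := by
  have hpr : Prime (p : ℤ) := Nat.prime_iff_prime_int.1 hp
  have hlo : P'.LiesOver (Ideal.span {(p : ℤ)}) :=
    (Ideal.liesOver_span_iff hP'.ne_top hpr).mpr (by simpa using hpP')
  have hlo2 : Q.LiesOver (Ideal.span {(p : ℤ)}) :=
    (Ideal.liesOver_span_iff hQ.ne_top hpr).mpr (by simpa using hpQ)
  obtain ⟨σ, hσ⟩ := Ideal.exists_smul_eq_of_isGaloisGroup (Ideal.span {(p : ℤ)}) P' Q Gal(E/ℚ)
  have h3 : σ • (p : 𝓞 E) ∈ σ • (P' ^ n) := Ideal.smul_mem_pointwise_smul σ _ _ h1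
  have h4 : σ • (p : 𝓞 E) = (p : 𝓞 E) := map_natCast (MulSemiringAction.toRingHom _ _ σ) p
  have h5 : σ • (P' ^ n) = (σ • P') ^ n := by
    rw [Ideal.pointwise_smul_def, Ideal.map_pow, Ideal.pointwise_smul_def]
  rw [h4, h5, hσ] at h3
  exact h3

/-- the numerical inequality -/
lemma mink_ineq (M : Type) [Field M] [NumberField M] (m : ℕ) (hm : 2 ≤ m)
    (hn : Module.finrank ℚ M = 2 * m) : (2 : ℝ) ^ (2 * m) < |(discr M : ℝ)| := by
  have hpi := Real.pi_gt_d2
  rcases Nat.lt_or_ge m 3 with h3 | h3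
  · have hm2 : m = 2 := by omega
    subst hm2
    have h1 := abs_discr_ge' M
    rw [hn] at h1
    have h2 : 2 * InfinitePlace.nrComplexPlaces M ≤ 4 := by
      have := InfinitePlace.card_add_two_mul_card_eq_rank M
      rw [hn] at this
      omega
    have h4 : (4 / π) ^ (2 * InfinitePlace.nrComplexPlaces M) ≤ (4 / π) ^ 4 := by
      apply pow_le_pow_right₀ _ h2
      rw [one_le_div Real.pi_pos]
      exact Real.pi_le_four
    have h5 : (2 : ℝ) ^ (2 * 2) < ((2 * 2 : ℕ) : ℝ) ^ (2 * (2 * 2)) / ((4 / π) ^ 4 *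
        ((2 * 2).factorial : ℝ) ^ 2) := by
      have h6 : ((2 * 2).factorial : ℝ) = 24 := by norm_num [Nat.factorial]
      rw [h6, lt_div_iff₀ (by positivity), div_pow]
      have h7 : (3.14 : ℝ) ^ 4 < π ^ 4 := pow_lt_pow_left₀ hpi (by norm_num) (by norm_num)
      have h8 : (0 : ℝ) < π ^ 4 := by positivity
      rw [show (2 : ℝ) ^ (2 * 2) * (4 ^ 4 / π ^ 4 * 24 ^ 2) = (2 : ℝ) ^ (2 * 2) * (4 ^ 4 * 24 ^ 2) / π ^ 4
        by ring, div_lt_iff₀ h8]
      push_cast
      nlinarith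
    rw [← Int.cast_abs]
    refine h5.trans_le (le_trans ?_ h1)
    gcongr
  · have h1 := abs_discr_ge (K := M) (by omega)
    rw [hn] at h1
    have h2 : (2.355 : ℝ) ^ (2 * m) ≤ (3 * π / 4) ^ (2 * m) := by
      apply pow_le_pow_left₀ (by norm_num)
      linarith
    have h3' : (2 : ℝ) ^ (2 * m) < 4 / 9 * 2.355 ^ (2 * m) := by
      obtain ⟨k, rfl⟩ := Nat.exists_eq_add_of_le h3
      have e1 : (2 : ℝ) ^ (2 * (3 + k)) = 64 * 4 ^ k := by
        rw [mul_add, pow_add, pow_mul _ 2 k]; norm_num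
      have e2 : (2.355 : ℝ) ^ (2 * (3 + k)) = 2.355 ^ 6 * (2.355 ^ 2) ^ k := by
        rw [mul_add, pow_add, pow_mul _ 2 k]
      rw [e1, e2]
      have h4 : (4 : ℝ) ^ k ≤ (2.355 ^ 2) ^ k := by
        apply pow_le_pow_left₀ (by norm_num)
        norm_num
      have h5 : (0 : ℝ) < 4 ^ k := by positivity
      calc (64 : ℝ) * 4 ^ k < (4 / 9 * 2.355 ^ 6) * 4 ^ k := by
            apply mul_lt_mul_of_pos_right _ h5
            norm_num
        _ ≤ (4 / 9 * 2.355 ^ 6) * (2.355 ^ 2) ^ k := by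
            apply mul_le_mul_of_nonneg_left h4 (by norm_num)
        _ = 4 / 9 * (2.355 ^ 6 * (2.355 ^ 2) ^ k) := by ring
    rw [← Int.cast_abs]
    refine h3'.trans_le (le_trans ?_ h1)
    gcongr

/-- a rational prime in a nonzero prime ideal -/
lemma exists_prime_mem (M : Type) [Field M] [NumberField M] (P' : Ideal (𝓞 M)) [P'.IsPrime]
    (hP0 : P' ≠ ⊥) : ∃ p : ℕ, p.Prime ∧ (p : 𝓞 M) ∈ P' := by
  obtain ⟨p, hp : _ = Ideal.span _⟩ := IsPrincipalIdealRing.principal (P'.under ℤ)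
  have hp0 : p ≠ 0 := by
    rintro rfl
    apply hP0
    apply Ideal.eq_bot_of_comap_eq_bot (R := ℤ)
    have h1 : P'.under ℤ = Ideal.comap (algebraMap ℤ (𝓞 M)) P' := rfl
    rw [← h1, hp]; simp
  have hpr : Prime p := by rw [← Ideal.span_singleton_prime hp0, ← hp]; infer_instance
  refine ⟨p.natAbs, Int.prime_iff_natAbs_prime.mp hpr, ?_⟩
  have h1 : p ∈ P'.under ℤ := by rw [hp]; exact Ideal.mem_span_singleton_self _
  have h2 : (p : 𝓞 M) ∈ P' := by
    rw [Ideal.under_def, Ideal.mem_comap] at h1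
    simpa using h1
  have h3 : ((p.natAbs : ℤ) : 𝓞 M) ∈ P' := by
    rcases Int.natAbs_eq p with h | h
    · rw [← h]; exact h2
    · have : ((p.natAbs : ℤ)) = -p := by omega
      rw [this]; push_cast; exact P'.neg_mem h2
  simpa using h3

attribute [local instance] FractionRing.liftAlgebra in
lemma under_le_sq (K M : Type) [Field K] [NumberField K] [Field M] [NumberField M] [Algebra K M]
    (P' : Ideal (𝓞 M)) [P'.IsPrime] (h : P' ∣ differentIdeal (𝓞 K) (𝓞 M)) (hP0 : P' ≠ ⊥) :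
    (P'.under (𝓞 K)).map (algebraMap (𝓞 K) (𝓞 M)) ≤ P' ^ 2 := by
  rw [dvd_differentIdeal_iff] at h
  by_contra hcon
  apply h
  have hp0 : P'.under (𝓞 K) ≠ ⊥ := mt Ideal.eq_bot_of_comap_eq_bot hP0
  rw [← Ideal.ramificationIdx_eq_one_iff, ← Ideal.ramificationIdx'_eq_ramificationIdx
    (P'.under (𝓞 K)) P' hp0]
  by_contra h1
  rw [← ne_eq, Ideal.ramificationIdx'_ne_one_iff Ideal.map_comap_le] at h1
  exact hcon h1

theorem unram_trivial (K M : Type) [Field K] [NumberField K] [Field M] [NumberField M]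
    [Algebra K M] (hd : (discr K).natAbs = 4) (hrank : Module.finrank ℚ K = 2)
    (i : 𝓞 K) (hi : i * i = -1)
    (ha : ∀ p : ℕ, p.Prime → p ≠ 2 → ∀ P' : Ideal (𝓞 M), P'.IsPrime → (p : 𝓞 M) ∈ P' →
      (p : 𝓞 M) ∉ P' ^ 2)
    (hb : ∀ P' : Ideal (𝓞 M), P'.IsPrime → ((2 : ℕ) : 𝓞 M) ∈ P' → ((2 : ℕ) : 𝓞 M) ∉ P' ^ 3) :
    Module.finrank K M = 1 := by
  have hdiff : differentIdeal (𝓞 K) (𝓞 M) = ⊤ := by
    by_contra hne
    obtain ⟨P', hP'm, hle⟩ := Ideal.exists_le_maximal _ hne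
    have hP' : P'.IsPrime := hP'm.isPrime
    have hP0 : P' ≠ ⊥ := by
      rintro rfl
      have : differentIdeal (𝓞 K) (𝓞 M) ≠ ⊥ := differentIdeal_ne_bot
      exact this (le_bot_iff.1 hle)
    have h1 := under_le_sq K M P' (Ideal.dvd_iff_le.2 hle) hP0
    obtain ⟨p, hp, hpP⟩ := exists_prime_mem M P' hP0
    have hmem : ∀ a : 𝓞 K, algebraMap (𝓞 K) (𝓞 M) a ∈ P' → algebraMap (𝓞 K) (𝓞 M) a ∈ P' ^ 2 := by
      intro a ha'
      apply h1
      apply Ideal.mem_map_of_mem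
      exact ha'
    by_cases hp2 : p = 2
    · subst hp2
      apply hb P' hP' hpP
      set I : 𝓞 M := algebraMap (𝓞 K) (𝓞 M) i with hI
      have hII : I * I = -1 := by rw [hI, ← map_mul, hi, map_neg, map_one]
      have h2 : algebraMap (𝓞 K) (𝓞 M) (1 + i) ∈ P' := by
        apply hP'.mem_of_pow_mem 2
        rw [map_add, map_one]
        have : (1 + I) ^ 2 = ((2 : ℕ) : 𝓞 M) * I := by
          push_cast
          linear_combination hII
        rw [← hI, this]
        exact P'.mul_mem_right _ hpP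
      have h3 := hmem _ h2
      rw [map_add, map_one, ← hI] at h3
      have h4 : ((2 : ℕ) : 𝓞 M) = (1 + I) * ((1 + I) * (-I)) := by
        push_cast
        linear_combination (2 + I) * hII
      have h5 : (1 + I) * (1 + I) ∈ P' ^ 2 * P' ^ 2 := Ideal.mul_mem_mul h3 h3
      have h6 : ((2 : ℕ) : 𝓞 M) ∈ P' ^ 2 * P' ^ 2 := by
        rw [h4, ← mul_assoc]
        exact Ideal.mul_mem_right _ _ h5
      rw [← pow_add] at h6
      exact Ideal.pow_le_pow_right (by norm_num) h6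
    · apply ha p hp hp2 P' hP' hpP
      have h2 := hmem (p : 𝓞 K) (by rw [map_natCast]; exact hpP)
      rwa [map_natCast] at h2
  have htower : (discr M).natAbs = 4 ^ Module.finrank K M := by
    have := natAbs_discr_eq_absNorm_differentIdeal_mul_natAbs_discr_pow K (𝓞 K) M (𝓞 M)
    rw [hdiff, Ideal.absNorm_top, one_mul, hd] at this
    exact this
  by_contra hne
  have hpos : 0 < Module.finrank K M := Module.finrank_pos
  have hn : Module.finrank ℚ M = 2 * Module.finrank K M := by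
    rw [← Module.finrank_mul_finrank ℚ K M, hrank]
  have h1 := mink_ineq M (Module.finrank K M) (by omega) hn
  have h2 : |(discr M : ℝ)| = 4 ^ Module.finrank K M := by
    have : ((discr M).natAbs : ℝ) = |(discr M : ℝ)| := by
      rw [Nat.cast_natAbs]; push_cast; rfl
    rw [← this, htower]; push_cast; rfl
  rw [h2, pow_mul] at h1
  norm_num at h1

end Pool.Agent.N549.JC
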