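import Pool.Agent.N549.JC.Tup

/-!
Fields all of whose subfields have a prime with ramified divisors only.
-/

set_option autoImplicit false

namespace Pool.Agent.N549.JC

open Polynomial Finset Filter Pool.Agent.H323R2 NumberField IntermediateField

/-- `ℚ(θ)` contains a number field all of whose primes above some prime `p`, not dividing `b`, are
ramified -/
def HasRam (θ : ℝ) (b : ℕ) : Prop :=
  ∃ (L : Type) (_ : Field L) (_ : NumberField L) (_ : L →+* ℚ⟮θ⟯) (p : ℕ), p.Prime ∧ ¬ p ∣ b ∧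
    ∀ P : Ideal (𝓞 L), P.IsPrime → (p : 𝓞 L) ∈ P → (p : 𝓞 L) ∈ P ^ 2

lemma joint_single (θ : ℝ) (hθ : IsAlgebraic ℚ θ) (b : ℕ) (hb : 2 ≤ b) (h : HasRam θ b) (n : ℤ) :
    JointlyFail (fun _ : Unit => θ - n) b := by
  obtain ⟨L, i1, i2, φ, p, hp, hpb, hram⟩ := h
  have hnf : NumberField ℚ⟮θ⟯ := nf_simple_real θ hθ
  refine joint_of_ram _ ℚ⟮θ⟯ ?_ L φ p hp hram b hb hpb
  apply le_antisymm
  · rw [adjoin_le_iff]
    rintro _ ⟨_, rfl⟩
    exact sub_mem (mem_adjoin_simple_self ℚ θ) (intCast_mem _ n)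
  · rw [adjoin_simple_le_iff]
    have h1 : θ - n ∈ adjoin ℚ (Set.range (fun _ : Unit => θ - (n : ℝ))) :=
      subset_adjoin ℚ _ ⟨(), rfl⟩
    have h2 := add_mem h1 (intCast_mem (adjoin ℚ (Set.range (fun _ : Unit => θ - (n : ℝ)))) n)
    rwa [sub_add_cancel] at h2

lemma exists_prime_above (F : Type) [Field F] [NumberField F] (p : ℕ) (hp : p.Prime) :
    ∃ P : Ideal (𝓞 F), P.IsPrime ∧ (p : 𝓞 F) ∈ P := by
  have h1 : Ideal.span {(p : 𝓞 F)} ≠ ⊤ := by
    intro h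
    have h2 := Ideal.absNorm_span_natCast (S := 𝓞 F) p
    rw [h, Ideal.absNorm_top] at h2
    have h3 : 0 < Module.finrank ℤ (𝓞 F) := by
      rw [RingOfIntegers.rank]; exact Module.finrank_pos
    have h4 : 1 < p ^ Module.finrank ℤ (𝓞 F) := Nat.one_lt_pow h3.ne' hp.one_lt
    omega
  obtain ⟨P, hP, hle⟩ := Ideal.exists_le_maximal _ h1
  exact ⟨P, hP.isPrime, hle (Ideal.mem_span_singleton_self _)⟩

/-- subfields of fields with nilpotent Galois closure -/
theorem nil_ram (E : Type) [Field E] [NumberField E] [IsGalois ℚ E]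
    (hnil : Group.IsNilpotent Gal(E/ℚ)) (b : ℕ) (hb : IsCoprime (b : ℤ) (discr E))
    (K : IntermediateField ℚ ℝ) (j : K →+* E) (θ : ℝ) (hθK : θ ∈ K) (hirr : Irrational θ) :
    HasRam θ b := by
  set θ' : E := j ⟨θ, hθK⟩ with hθ'
  have hle0 : ℚ⟮θ⟯ ≤ K := by rw [adjoin_simple_le_iff]; exact hθK
  set j0 : ℚ⟮θ⟯ →ₐ[ℚ] E := (j.comp (inclusion hle0 : ℚ⟮θ⟯ →+* K)).toRatAlgHom with hj0
  have hne : ℚ⟮θ'⟯ ≠ ⊥ := by
    intro h
    have h1 : θ' ∈ (⊥ : IntermediateField ℚ E) := by rw [← h]; exact mem_adjoin_simple_self ℚ _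
    rw [IntermediateField.mem_bot] at h1
    obtain ⟨q, hq⟩ := h1
    have h2 : (⟨θ, hθK⟩ : K) = algebraMap ℚ K q := by
      apply j.injective
      rw [← hθ', ← hq]
      have : (j.toRatAlgHom) (algebraMap ℚ K q) = algebraMap ℚ E q := AlgHom.commutes _ _
      exact this.symm
    have h3 : θ = algebraMap ℚ ℝ q := congrArg Subtype.val h2
    exact hirr ⟨q, h3.symm⟩
  set H := (ℚ⟮θ'⟯).fixingSubgroup with hH
  have hH1 : H ≠ ⊤ := by
    intro h
    apply hne
    rw [← IsGalois.fixedField_fixingSubgroup ℚ⟮θ'⟯, ← hH, h, IsGalois.fixedField_top]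
  obtain ⟨Mx, hM, hHM⟩ := (eq_top_or_exists_le_coatom H).resolve_left hH1
  have htfae : Group.IsNilpotent Gal(E/ℚ) ↔ ∀ H : Subgroup Gal(E/ℚ), IsCoatom H → H.Normal :=
    (Group.isNilpotent_of_finite_tfae (G := Gal(E/ℚ))).out 0 2
  have hnorm : Mx.Normal := htfae.1 hnil Mx hM
  set F1 := fixedField Mx with hF1
  have hgal : IsGalois ℚ F1 := IsGalois.of_fixedField_normal_subgroup Mx
  have hF1le : F1 ≤ ℚ⟮θ'⟯ := by
    rw [← IsGalois.fixedField_fixingSubgroup ℚ⟮θ'⟯]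
    exact fixedField_le hHM
  have hF1ne : F1 ≠ ⊥ := by
    intro h
    apply hM.1
    have h1 : fixingSubgroup F1 = Mx := fixingSubgroup_fixedField Mx
    rw [← h1, h, fixingSubgroup_bot]
  have hrank : 1 < Module.finrank ℚ F1 := by
    have h1 : 0 < Module.finrank ℚ F1 := Module.finrank_pos
    by_contra h2
    have h3 : Module.finrank ℚ F1 = 1 := by omega
    exact hF1ne (finrank_eq_one_iff.1 h3)
  obtain ⟨p, hp, h⟩ := NumberField.exists_not_isUnramifiedAt_int_of_isGalois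
    (K := F1) (𝒪 := 𝓞 F1) hrank
  have hpd : (p : ℤ) ∣ discr F1 := by
    by_contra hnd
    rw [not_dvd_discr_iff_forall_mem F1 (𝓞 F1) (Nat.prime_iff_prime_int.1 hp)] at hnd
    obtain ⟨P, hP, hpP⟩ := exists_prime_above F1 p hp
    exact h P hP hpP (hnd P hP (by simpa using hpP))
  have hpE : (p : ℤ) ∣ discr E := hpd.trans (discr_dvd_discr F1 E)
  have hpb : ¬ p ∣ b := by
    intro hd
    have h1 : (p : ℤ) ∣ b := by exact_mod_cast hd
    have h2 := hb.isUnit_of_dvd' h1 hpE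
    exact (Nat.prime_iff_prime_int.1 hp).not_isUnit h2
  have hrange : F1 ≤ j0.fieldRange := by
    refine hF1le.trans ?_
    rw [adjoin_simple_le_iff]
    exact ⟨⟨θ, mem_adjoin_simple_self ℚ θ⟩, rfl⟩
  refine ⟨F1, inferInstance, inferInstance,
    ((AlgEquiv.ofInjectiveField j0).symm.toAlgHom.comp (inclusion hrange)).toRingHom, p, hp, hpb, ?_⟩
  intro P hP hpP
  exact mem_sq_of_not_unramified F1 p hp P hP hpP (h P hP hpP)

/-- subfields of fields with a totally ramified prime -/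
theorem tot_ram (K L : Type) [Field K] [NumberField K] [Field L] [NumberField L] (φ : L →+* K)
    (hL : 2 ≤ Module.finrank ℚ L) (p : ℕ) (hp : p.Prime) (P : Ideal (𝓞 K)) (hP : P.IsPrime)
    (hpP : (p : 𝓞 K) ∈ P ^ Module.finrank ℚ K) (Q : Ideal (𝓞 L)) (hQ : Q.IsPrime)
    (hpQ : (p : 𝓞 L) ∈ Q) : (p : 𝓞 L) ∈ Q ^ 2 := by
  set n := Module.finrank ℚ K with hn
  have hn0 : 0 < n := Module.finrank_pos
  have hp0 : (p : 𝓞 K) ≠ 0 := by exact_mod_cast hp.ne_zero
  have hp0L : (p : 𝓞 L) ≠ 0 := by exact_mod_cast hp.ne_zero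
  have hPtop : P ≠ ⊤ := hP.ne_top
  -- the norm of `P`
  have hdvd : P ^ n ∣ Ideal.span {(p : 𝓞 K)} :=
    Ideal.dvd_iff_le.2 ((Ideal.span_singleton_le_iff_mem _).2 hpP)
  have hnormp : (Ideal.span {(p : 𝓞 K)}).absNorm = p ^ n := by
    rw [Ideal.absNorm_span_natCast, RingOfIntegers.rank]
  have h1 : P.absNorm ^ n ∣ p ^ n := by
    rw [← hnormp, ← map_pow]
    exact map_dvd Ideal.absNorm hdvd
  have h2 : P.absNorm ∣ p := (Nat.pow_dvd_pow_iff hn0.ne').1 h1
  have h3 : P.absNorm = p := by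
    rcases (Nat.dvd_prime hp).1 h2 with h | h
    · exact absurd (Ideal.absNorm_eq_one_iff.1 h) hPtop
    · exact h
  -- `(p) = P ^ n`
  have h4 : P ^ n = Ideal.span {(p : 𝓞 K)} := by
    obtain ⟨B, hB⟩ := hdvd
    have h5 : B.absNorm = 1 := by
      have h6 := congrArg Ideal.absNorm hB
      rw [map_mul, map_pow, h3, hnormp] at h6
      have h7 : 0 < p ^ n := pow_pos hp.pos n
      have : p ^ n * 1 = p ^ n * B.absNorm := by rw [mul_one]; exact h6
      exact (Nat.eq_of_mul_eq_mul_left h7 this).symm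
    rw [Ideal.absNorm_eq_one_iff] at h5
    rw [hB, h5, ← Ideal.one_eq_top, mul_one]
  have hPne : P ≠ ⊥ := by
    rintro rfl
    rw [Ideal.absNorm_bot] at h3
    exact hp.ne_zero h3.symm
  have hPmax : P.IsMaximal := hP.isMaximal hPne
  -- all primes of `L` above `p` are the restriction of `P`
  have hres : ∀ Q : Ideal (𝓞 L), Q.IsPrime → (p : 𝓞 L) ∈ Q →
      P.comap (RingOfIntegers.mapRingHom φ) = Q := by
    intro Q hQ hpQ
    obtain ⟨Q', hQ', hQQ'⟩ := exists_above K L φ Q hQ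
    have h5 : (p : 𝓞 K) ∈ Q' := by
      have : (p : 𝓞 L) ∈ Q'.comap (RingOfIntegers.mapRingHom φ) := by rw [hQQ']; exact hpQ
      rw [Ideal.mem_comap, map_natCast] at this
      exact this
    have h6 : P ^ n ≤ Q' := by
      rw [h4, Ideal.span_singleton_le_iff_mem]; exact h5
    have h7 : P ≤ Q' := hQ'.le_of_pow_le h6
    have h8 : P = Q' := hPmax.eq_of_le hQ'.ne_top h7
    rw [h8]; exact hQQ'
  have hPQ := hres Q hQ hpQ
  by_contra hcon
  obtain ⟨A, hA⟩ := Ideal.dvd_iff_le.2 ((Ideal.span_singleton_le_iff_mem Q).2 hpQ)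
  have hAQ : ¬ A ≤ Q := by
    intro hle
    apply hcon
    have h5 : Ideal.span {(p : 𝓞 L)} ≤ Q ^ 2 := by
      rw [hA, pow_two]
      exact Ideal.mul_mono le_rfl hle
    exact h5 (Ideal.mem_span_singleton_self _)
  have hAtop : A = ⊤ := by
    by_contra hne
    obtain ⟨Q2, hQ2, hle⟩ := Ideal.exists_le_maximal _ hne
    have h5 : (p : 𝓞 L) ∈ Q2 := by
      have h6 : Ideal.span {(p : 𝓞 L)} ≤ A := by
        rw [hA]; exact Ideal.mul_le_inf.trans inf_le_right
      exact hle (h6 (Ideal.mem_span_singleton_self _))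
    have h7 := hres Q2 hQ2.isPrime h5
    rw [hPQ] at h7
    rw [← h7] at hle
    exact hAQ hle
  rw [hAtop, ← Ideal.one_eq_top, mul_one] at hA
  have h5 : Q.absNorm = p ^ Module.finrank ℚ L := by
    rw [← hA, Ideal.absNorm_span_natCast, RingOfIntegers.rank]
  have h6 : Q.absNorm ≤ P.absNorm := by
    rw [Ideal.absNorm_apply, Ideal.absNorm_apply, Submodule.cardQuot_apply,
      Submodule.cardQuot_apply]
    have hfin : Finite (𝓞 K ⧸ P) := Ideal.finiteQuotientOfFreeOfNeBot P hPne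
    have hle : Q ≤ P.comap (RingOfIntegers.mapRingHom φ) := hPQ.ge
    apply Nat.card_le_card_of_injective (Ideal.quotientMap P (RingOfIntegers.mapRingHom φ) hle)
    exact Ideal.quotientMap_injective' hPQ.le
  rw [h5, h3] at h6
  have h7 : p ^ 1 < p ^ Module.finrank ℚ L := Nat.pow_lt_pow_right hp.one_lt hL
  rw [pow_one] at h7
  omega

end Pool.Agent.N549.JC
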