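import Pool.Agent.N549.JC.Cnt

/-!
Integer combinations generating a number field, and good numbers.
-/

set_option autoImplicit false

namespace Pool.Agent.N549.JC

open Polynomial Finset Filter Pool.Agent.H323R2 NumberField IntermediateField

/-- two elements, one integer -/
lemma exists_nat_gen (E : Type) [Field E] [CharZero E] [Finite (IntermediateField ℚ E)] (α β : E) :
    ∃ n : ℕ, α ∈ ℚ⟮α + (n : E) * β⟯ ∧ β ∈ ℚ⟮α + (n : E) * β⟯ := by
  let f : ℕ → IntermediateField ℚ E := fun n => ℚ⟮α + (n : E) * β⟯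
  obtain ⟨n, m, hne, heq⟩ := Finite.exists_ne_map_eq_of_infinite f
  refine ⟨n, ?_⟩
  have h1 : α + (n : E) * β ∈ ℚ⟮α + (n : E) * β⟯ := mem_adjoin_simple_self ℚ _
  have h2 : α + (m : E) * β ∈ ℚ⟮α + (n : E) * β⟯ := by
    have : ℚ⟮α + (n : E) * β⟯ = ℚ⟮α + (m : E) * β⟯ := heq
    rw [this]; exact mem_adjoin_simple_self ℚ _
  have h3 := sub_mem h1 h2
  have h4 : ((n : E) - m) ≠ 0 := by
    rw [Ne, sub_eq_zero]; exact_mod_cast hne
  have hβ : β ∈ ℚ⟮α + (n : E) * β⟯ := by
    have h5 : (((n : E) - m)⁻¹ : E) ∈ ℚ⟮α + (n : E) * β⟯ := by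
      apply inv_mem
      apply sub_mem <;> exact _root_.natCast_mem _ _
    have h6 := mul_mem h5 h3
    have : ((n : E) - m)⁻¹ * (α + (n : E) * β - (α + (m : E) * β)) = β := by
      field_simp
      ring
    rwa [this] at h6
  refine ⟨?_, hβ⟩
  have h7 : (n : E) * β ∈ ℚ⟮α + (n : E) * β⟯ := mul_mem (_root_.natCast_mem _ _) hβ
  have h8 := sub_mem h1 h7
  rwa [add_sub_cancel_right] at h8

lemma exists_gen {ι : Type} [Fintype ι] (E : Type) [Field E] [CharZero E]
    [Finite (IntermediateField ℚ E)] (x : ι → E) (B : ι → ℤ) (hB : ∀ i, B i ≠ 0) :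
    ∃ w : ι → ℤ, ∀ i, x i ∈ ℚ⟮∑ i, ((w i * B i : ℤ) : E) * x i⟯ := by
  classical
  suffices h : ∀ s : Finset ι, ∃ w : ι → ℤ, ∀ i ∈ s, x i ∈
      ℚ⟮∑ i ∈ s, ((w i * B i : ℤ) : E) * x i⟯ by
    obtain ⟨w, hw⟩ := h univ
    exact ⟨w, fun i => hw i (mem_univ i)⟩
  intro s
  induction s using Finset.induction_on with
  | empty => exact ⟨0, by simp⟩
  | insert a s ha ih =>
    obtain ⟨w, hw⟩ := ih
    obtain ⟨n, h1, h2⟩ := exists_nat_gen E (∑ i ∈ s, ((w i * B i : ℤ) : E) * x i)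
      (((B a : ℤ) : E) * x a)
    refine ⟨fun i => if i = a then n else w i, ?_⟩
    have e1 : ∑ i ∈ insert a s, ((((if i = a then (n : ℤ) else w i) * B i : ℤ)) : E) * x i =
        ∑ i ∈ s, ((w i * B i : ℤ) : E) * x i + (n : E) * (((B a : ℤ) : E) * x a) := by
      rw [Finset.sum_insert ha, add_comm]
      congr 1
      · apply Finset.sum_congr rfl
        intro i hi
        have : i ≠ a := fun h => ha (h ▸ hi)
        rw [if_neg this]
      · rw [if_pos rfl]
        push_cast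
        ring
    rw [e1]
    intro i hi
    rw [Finset.mem_insert] at hi
    rcases hi with rfl | hi
    · have hB' : ((B i : ℤ) : E) ≠ 0 := by exact_mod_cast hB i
      have h3 : (((B i : ℤ) : E))⁻¹ * (((B i : ℤ) : E) * x i) ∈
          ℚ⟮∑ i ∈ s, ((w i * B i : ℤ) : E) * x i + (n : E) * (((B i : ℤ) : E) * x i)⟯ :=
        mul_mem (inv_mem (intCast_mem _ _)) h2
      rwa [inv_mul_cancel_left₀ hB'] at h3
    · have h3 := hw i hi
      have h4 : ℚ⟮∑ i ∈ s, ((w i * B i : ℤ) : E) * x i⟯ ≤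
          ℚ⟮∑ i ∈ s, ((w i * B i : ℤ) : E) * x i + (n : E) * (((B a : ℤ) : E) * x a)⟯ := by
        rw [adjoin_simple_le_iff]; exact h1
      exact h4 h3

/-- every element of `ℚ(θ)` is, up to a nonzero integer factor, an integer polynomial in `θ` -/
lemma exists_int_poly' (E : Type) [Field E] [NumberField E] (ψ : E →+* ℝ) (θ : E)
    (hθ : ℚ⟮θ⟯ = ⊤) (y : E) :
    ∃ (w : ℤ) (g : ℤ[X]), w ≠ 0 ∧ (w : ℝ) * ψ y = (g.map (Int.castRingHom ℝ)).eval (ψ θ) := by
  have hy : y ∈ (ℚ⟮θ⟯).toSubalgebra := by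
    rw [hθ]; exact mem_top
  have halg : IsAlgebraic ℚ θ := Algebra.IsAlgebraic.isAlgebraic θ
  rw [adjoin_simple_toSubalgebra_of_isAlgebraic halg, Algebra.adjoin_singleton_eq_range_aeval] at hy
  obtain ⟨f, hf⟩ := hy
  obtain ⟨w, hw, hmap⟩ := IsLocalization.integerNormalization_spec (nonZeroDivisors ℤ) f
  refine ⟨w, IsLocalization.integerNormalization (nonZeroDivisors ℤ) f,
    nonZeroDivisors.ne_zero hw, ?_⟩
  have h1 : (IsLocalization.integerNormalization (nonZeroDivisors ℤ) f).map (Int.castRingHom ℝ) =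
      ((IsLocalization.integerNormalization (nonZeroDivisors ℤ) f).map
        (algebraMap ℤ ℚ)).map (algebraMap ℚ ℝ) := by
    rw [Polynomial.map_map]; congr 1
  have h2 : (aeval θ) f = y := hf
  rw [h1, hmap, Polynomial.eval_map_algebraMap, ← h2]
  have h3 : ψ ((aeval θ) f) = (aeval (ψ θ)) f := by
    have : (aeval ((ψ.toRatAlgHom) θ)) f = (ψ.toRatAlgHom) ((aeval θ) f) :=
      Polynomial.aeval_algHom_apply _ _ _
    exact this.symm
  rw [h3]
  simp

/-- generators of number fields having a subfield in which all primes above `p` are ramified are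
good in all bases not divisible by `p` -/
theorem good_of_prim (E : Type) [Field E] [NumberField E] (ψ : E →+* ℝ) (θ : E)
    (hθ : ℚ⟮θ⟯ = ⊤) (L : Type) [Field L] [NumberField L]
    (φ : L →+* E) (p : ℕ) (hp : p.Prime)
    (h : ∀ P : Ideal (𝓞 L), P.IsPrime → (p : 𝓞 L) ∈ P → (p : 𝓞 L) ∈ P ^ 2)
    (b : ℕ) (hb : 2 ≤ b) (hpb : ¬ p ∣ b) : Good b (ψ θ) := by
  have : Fact p.Prime := ⟨hp⟩
  obtain ⟨y, u, N, n, hn, hN, hyu, ⟨a, ha⟩, ⟨c, hc⟩⟩ := exists_yu L p hp h
  obtain ⟨w, g, hw, hg⟩ := exists_int_poly' E ψ θ hθ (φ (y : L))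
  set χ : 𝓞 L →+* ℝ := (ψ.comp φ).comp (algebraMap (𝓞 L) L) with hχ
  have hint' : ∀ z : 𝓞 L, IsIntegral ℤ (χ z) := by
    intro z
    have h1 : IsIntegral ℤ (z : L) := z.2
    have h2 := h1.map ((ψ.comp φ).toIntAlgHom)
    exact h2
  have e1 : χ y ^ n = p * χ a := by
    rw [← map_pow, ha, map_mul, map_natCast]
  have e2 : χ u ^ n = p * χ c := by
    rw [← map_pow, hc, map_mul, map_natCast]
  have e3 : χ y * χ u = N * p := by
    rw [← map_mul, hyu, map_mul, map_natCast, map_intCast]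
  have := good_int_mul p n hn b hb hpb _ _ _ _ N hN (hint' a) (hint' c) e1 e2 e3 (ψ θ) w hw g hg
    1 one_ne_zero
  simpa using this

/-- joint failure of the generators of a number field with a subfield in which all primes above
`p` are ramified -/
theorem joint_of_ram {ι : Type} [Fintype ι] (x : ι → ℝ) (E : IntermediateField ℚ ℝ)
    [NumberField E] (hE : adjoin ℚ (Set.range x) = E) (L : Type) [Field L] [NumberField L]
    (φ : L →+* E) (p : ℕ) (hp : p.Prime)
    (h : ∀ P : Ideal (𝓞 L), P.IsPrime → (p : 𝓞 L) ∈ P → (p : 𝓞 L) ∈ P ^ 2)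
    (b : ℕ) (hb : 2 ≤ b) (hpb : ¬ p ∣ b) : JointlyFail x b := by
  apply joint_of_good x b hb
  intro B hB
  have hx : ∀ i, x i ∈ E := by
    intro i
    rw [← hE]
    exact subset_adjoin ℚ _ ⟨i, rfl⟩
  set x' : ι → E := fun i => ⟨x i, hx i⟩ with hx'
  have hfin : Finite (IntermediateField ℚ E) :=
    Field.finite_intermediateField_of_exists_primitive_element ℚ E
      (Field.exists_primitive_element ℚ E)
  obtain ⟨w, hw⟩ := exists_gen E x' B hB
  refine ⟨w, ?_⟩
  have htop : ℚ⟮∑ i, ((w i * B i : ℤ) : E) * x' i⟯ = ⊤ := by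
    rw [eq_top_iff]
    have h1 : IntermediateField.lift (ℚ⟮∑ i, ((w i * B i : ℤ) : E) * x' i⟯) = E := by
      apply le_antisymm (IntermediateField.lift_le _)
      conv_lhs => rw [← hE]
      rw [adjoin_le_iff]
      rintro _ ⟨i, rfl⟩
      have := hw i
      exact ⟨x' i, this, rfl⟩
    have h2 : IntermediateField.lift (⊤ : IntermediateField ℚ E) = E :=
      IntermediateField.lift_top (F := ℚ) (E := ℝ) E
    have h3 := IntermediateField.lift_injective E (h1.trans h2.symm)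
    exact h3.ge
  have h1 := good_of_prim E (algebraMap E ℝ) _ htop L φ p hp h b hb hpb
  have h2 : (algebraMap E ℝ) (∑ i, ((w i * B i : ℤ) : E) * x' i) = ∑ i, (w i * B i : ℤ) * x i := by
    rw [map_sum]
    apply Finset.sum_congr rfl
    intro i _
    rw [map_mul, map_intCast]
    rfl
  rw [h2] at h1
  exact h1

end Pool.Agent.N549.JC
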