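import Pool.Agent.N549.JC.Cx

/-!
Linear relations between the digits of several numbers.
-/

set_option autoImplicit false

namespace Pool.Agent.N549.JC

open Polynomial Finset Filter Pool.Agent.H323R2

/-- the value at `k` of the relation with coefficients `q` -/
def rel {ι : Type} [Fintype ι] (g : ι → ℕ → ℤ) (m : ℕ) (q : ι → ℕ → ℤ) (k : ℕ) : ℤ :=
  ∑ i, ∑ j ∈ range (m + 1), q i j * g i (k + j)

/-- number of failures among the first `N` indices (starting at `1`) -/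
noncomputable def fails (v : ℕ → ℤ) (e : ℤ) (N : ℕ) : ℕ :=
  ((range N).filter (fun k : ℕ => v (k + 1) ≠ e)).card

lemma rel_bound {ι : Type} [Fintype ι] (g : ι → ℕ → ℤ) (G : ℤ) (hg : ∀ i k, |g i k| ≤ G)
    (m : ℕ) (q : ι → ℕ → ℤ) (k : ℕ) :
    |rel g m q k| ≤ ∑ i, ∑ j ∈ range (m + 1), |q i j| * G := by
  unfold rel
  refine (Finset.abs_sum_le_sum_abs _ _).trans (Finset.sum_le_sum fun i _ => ?_)
  refine (Finset.abs_sum_le_sum_abs _ _).trans (Finset.sum_le_sum fun j _ => ?_)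
  rw [abs_mul]
  exact mul_le_mul_of_nonneg_left (hg i _) (abs_nonneg _)

/-- the sum of a relation -/
lemma rel_hasSum {ι : Type} [Fintype ι] (b : ℕ) (hb : 2 ≤ b) (x : ι → ℝ) (g : ι → ℕ → ℤ)
    (hs : ∀ i, HasSum (fun k : ℕ => (g i k : ℝ) / (b : ℝ) ^ k) (x i)) (m : ℕ) (q : ι → ℕ → ℤ) :
    ∃ n0 : ℤ, HasSum (fun k : ℕ => (rel g m q k : ℝ) / (b : ℝ) ^ k)
      (∑ i, ((∑ j ∈ range (m + 1), q i j * (b : ℤ) ^ j : ℤ) : ℝ) * x i - n0) := by
  have hb0 : (b : ℝ) ≠ 0 := by positivity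
  have h1 : ∀ i j, HasSum (fun k : ℕ => (g i (k + j) : ℝ) / (b : ℝ) ^ k)
      ((b : ℝ) ^ j * x i - ((∑ l ∈ range j, g i l * (b : ℤ) ^ (j - l) : ℤ) : ℝ)) := by
    intro i j
    have h2 := (hasSum_nat_add_iff' j).2 (hs i)
    have h3 := h2.mul_left ((b : ℝ) ^ j)
    have e1 : (b : ℝ) ^ j * (x i - ∑ l ∈ range j, (g i l : ℝ) / (b : ℝ) ^ l) =
        (b : ℝ) ^ j * x i - ((∑ l ∈ range j, g i l * (b : ℤ) ^ (j - l) : ℤ) : ℝ) := by
      rw [mul_sub, Finset.mul_sum]
      congr 1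
      push_cast
      apply Finset.sum_congr rfl
      intro l hl
      rw [Finset.mem_range] at hl
      have : (b : ℝ) ^ j = (b : ℝ) ^ (j - l) * (b : ℝ) ^ l := by
        rw [← pow_add]; congr 1; omega
      rw [this]; field_simp
    rw [e1] at h3
    refine h3.congr_fun ?_ |> fun h => h
    intro k
    show (g i (k + j) : ℝ) / (b : ℝ) ^ k = (b : ℝ) ^ j * ((g i (k + j) : ℝ) / (b : ℝ) ^ (k + j))
    rw [pow_add]; field_simp
  refine ⟨∑ i, ∑ j ∈ range (m + 1), q i j * ∑ l ∈ range j, g i l * (b : ℤ) ^ (j - l), ?_⟩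
  have h4 : HasSum (fun k : ℕ => ∑ i, ∑ j ∈ range (m + 1), (q i j : ℝ) *
      ((g i (k + j) : ℝ) / (b : ℝ) ^ k))
      (∑ i, ∑ j ∈ range (m + 1), (q i j : ℝ) *
        ((b : ℝ) ^ j * x i - ((∑ l ∈ range j, g i l * (b : ℤ) ^ (j - l) : ℤ) : ℝ))) := by
    apply hasSum_sum
    intro i _
    apply hasSum_sum
    intro j _
    exact (h1 i j).mul_left _
  have e2 : (∑ i, ∑ j ∈ range (m + 1), (q i j : ℝ) *
        ((b : ℝ) ^ j * x i - ((∑ l ∈ range j, g i l * (b : ℤ) ^ (j - l) : ℤ) : ℝ))) =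
      ∑ i, ((∑ j ∈ range (m + 1), q i j * (b : ℤ) ^ j : ℤ) : ℝ) * x i -
        ((∑ i, ∑ j ∈ range (m + 1), q i j * ∑ l ∈ range j, g i l * (b : ℤ) ^ (j - l) : ℤ) : ℝ) := by
    push_cast
    rw [← Finset.sum_sub_distrib]
    apply Finset.sum_congr rfl
    intro i _
    rw [Finset.sum_mul, ← Finset.sum_sub_distrib]
    apply Finset.sum_congr rfl
    intro j _
    ring
  rw [e2] at h4
  refine h4.congr_fun ?_ |> fun h => h
  intro k
  unfold rel
  push_cast
  rw [Finset.sum_div]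
  apply Finset.sum_congr rfl
  intro i _
  rw [Finset.sum_div]
  apply Finset.sum_congr rfl
  intro j _
  ring

/-- from the joint statement for one number to the failures of `h = e` -/
lemma fails_of_joint (b : ℕ) (y : ℝ) (hj : JointlyFail (fun _ : Unit => y) b) (h : ℕ → ℤ) (H : ℤ)
    (hh : ∀ k, |h k| ≤ H) (hs : HasSum (fun k : ℕ => (h k : ℝ) / (b : ℝ) ^ k) y) (e : ℤ) :
    ∃ c δ : ℝ, 0 < c ∧ 0 < δ ∧ ∀ᶠ N : ℕ in atTop, c * (N : ℝ) ^ δ ≤ (fails h e N : ℝ) := by
  obtain ⟨c, δ, hc, hδ, hev⟩ := hj (fun _ => h) H (fun _ k => hh k) (fun _ => hs) 0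
    (fun _ _ => 1) (fun _ => e) (fun _ => by simp)
  refine ⟨c, δ, hc, hδ, hev.mono fun N hN => ?_⟩
  simpa [fails] using hN

/-- synthetic division by `X - b` -/
lemma divide (b : ℤ) (m : ℕ) (q : ℕ → ℤ) (hq : ∑ j ∈ range (m + 2), q j * b ^ j = 0) :
    ∃ q' : ℕ → ℤ, ((∃ j ∈ range (m + 2), q j ≠ 0) → ∃ j ∈ range (m + 1), q' j ≠ 0) ∧
      ∀ (g : ℕ → ℤ) (k : ℕ), ∑ j ∈ range (m + 2), q j * g (k + j) =
        ∑ j ∈ range (m + 1), q' j * g (k + 1 + j) - b * ∑ j ∈ range (m + 1), q' j * g (k + j) := by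
  set q' : ℕ → ℤ := fun j => ∑ l ∈ range (m + 1 - j), q (j + 1 + l) * b ^ l with hq'
  have htop : q' (m + 1) = 0 := by simp [hq']
  have hrec : ∀ j, j ≤ m → q (j + 1) = q' j - b * q' (j + 1) := by
    intro j hj
    simp only [hq']
    have e1 : m + 1 - j = (m + 1 - (j + 1)) + 1 := by omega
    rw [e1, Finset.sum_range_succ', Finset.mul_sum]
    have e2 : ∀ l, q (j + 1 + (l + 1)) * b ^ (l + 1) = b * (q (j + 1 + 1 + l) * b ^ l) := by
      intro l
      rw [show j + 1 + (l + 1) = j + 1 + 1 + l by ring]; ring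
    simp_rw [e2]
    simp
  have hzero : q 0 = -b * q' 0 := by
    rw [Finset.sum_range_succ'] at hq
    have e1 : ∑ k ∈ range (m + 1), q (k + 1) * b ^ (k + 1) = b * q' 0 := by
      simp only [hq']
      rw [Finset.mul_sum]
      apply Finset.sum_congr (by simp)
      intro l _
      rw [show 0 + 1 + l = l + 1 by ring]; ring
    rw [e1] at hq
    simp at hq
    linarith
  clear_value q'
  refine ⟨q', ?_, ?_⟩
  · rintro ⟨j, hj, hne⟩
    by_contra hcon
    push Not at hcon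
    have hall : ∀ j, j ≤ m + 1 → q' j = 0 := by
      intro j hj
      rcases Nat.lt_or_ge j (m + 1) with h | h
      · exact hcon j (Finset.mem_range.2 h)
      · have : j = m + 1 := by omega
        rw [this]; exact htop
    apply hne
    rw [Finset.mem_range] at hj
    rcases j with _ | j
    · rw [hzero, hall 0 (by omega)]; ring
    · rw [hrec j (by omega), hall j (by omega), hall (j + 1) (by omega)]; ring
  · intro g k
    have e1 : ∑ j ∈ range (m + 1), q' j * g (k + j) = ∑ j ∈ range (m + 2), q' j * g (k + j) := by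
      rw [Finset.sum_range_succ _ (m + 1), htop]; ring
    rw [e1, Finset.sum_range_succ' _ (m + 1), Finset.sum_range_succ' _ (m + 1), hzero, mul_add]
    have e2 : ∀ j ∈ range (m + 1), q (j + 1) * g (k + (j + 1)) =
        q' j * g (k + 1 + j) - b * (q' (j + 1) * g (k + (j + 1))) := by
      intro j hj
      rw [Finset.mem_range] at hj
      rw [hrec j (by omega), show k + 1 + j = k + (j + 1) by ring]; ring
    rw [Finset.sum_congr rfl e2, Finset.sum_sub_distrib, ← Finset.mul_sum]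
    simp only [add_zero]
    ring

/-- transfer of failures along a recursion `R k = u (k+1) - b u k` with bounded `u` -/
lemma transfer (b : ℕ) (hb : 2 ≤ b) (u R : ℕ → ℤ) (C : ℤ) (hu : ∀ k, |u k| ≤ C) (e : ℤ)
    (hR : ∀ k, R k = u (k + 1) - b * u k) :
    ∃ J : ℕ, 0 < J ∧ ∀ N, fails (fun k => ((b : ℤ) - 1) * u k) (-e) N ≤ J * fails R e (N + J) := by
  classical
  set v : ℕ → ℤ := fun k => ((b : ℤ) - 1) * u k + e with hv
  have hb0 : (2 : ℤ) ≤ b := by exact_mod_cast hb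
  have hC0 : 0 ≤ C := (abs_nonneg _).trans (hu 0)
  set D : ℤ := ((b : ℤ) - 1) * C + |e| with hD
  have hD0 : 0 ≤ D := by
    apply add_nonneg (mul_nonneg (by linarith) hC0) (abs_nonneg _)
  have hvD : ∀ k, |v k| ≤ D := by
    intro k
    refine (abs_add_le _ _).trans ?_
    apply add_le_add _ le_rfl
    rw [abs_mul, abs_of_nonneg (by linarith : (0 : ℤ) ≤ (b : ℤ) - 1)]
    exact mul_le_mul_of_nonneg_left (hu k) (by linarith)
  have hstep : ∀ k, R k = e → v (k + 1) = b * v k := by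
    intro k hk
    rw [hR k] at hk
    simp only [hv]
    linear_combination ((b : ℤ) - 1) * hk
  obtain ⟨J, hJ⟩ : ∃ J : ℕ, D < 2 ^ J := by
    obtain ⟨J, hJ⟩ := pow_unbounded_of_one_lt D (one_lt_two)
    exact ⟨J, hJ⟩
  have hJ' : D < 2 ^ (J + 1) := by
    refine hJ.trans ?_
    rw [pow_succ]
    have : (0 : ℤ) < 2 ^ J := by positivity
    linarith
  have hkey : ∀ s, v s ≠ 0 → ∃ t ∈ range (J + 1), R (s + t) ≠ e := by
    intro s hs
    by_contra hcon
    push Not at hcon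
    have h1 : ∀ t, t ≤ J + 1 → v (s + t) = (b : ℤ) ^ t * v s := by
      intro t
      induction t with
      | zero => intro _; simp
      | succ t ih =>
        intro ht
        rw [← add_assoc, hstep (s + t) (hcon t (Finset.mem_range.2 (by omega))), ih (by omega)]
        ring
    have h2 := h1 (J + 1) le_rfl
    have h3 := hvD (s + (J + 1))
    rw [h2, abs_mul, abs_of_nonneg (by positivity : (0 : ℤ) ≤ (b : ℤ) ^ (J + 1))] at h3
    have h4 : (1 : ℤ) ≤ |v s| := Int.one_le_abs hs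
    have h5 : (2 : ℤ) ^ (J + 1) ≤ (b : ℤ) ^ (J + 1) := pow_le_pow_left₀ (by norm_num) hb0 _
    have h6 : (b : ℤ) ^ (J + 1) * 1 ≤ (b : ℤ) ^ (J + 1) * |v s| :=
      mul_le_mul_of_nonneg_left h4 (by positivity)
    linarith
  refine ⟨J + 1, by omega, fun N => ?_⟩
  unfold fails
  have h7 : ((range N).filter (fun k : ℕ => ((b : ℤ) - 1) * u (k + 1) ≠ -e)) ⊆
      (range (J + 1)).biUnion (fun t => (range N).filter (fun k : ℕ => R (k + 1 + t) ≠ e)) := by
    intro k hk
    rw [Finset.mem_filter] at hk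
    have h8 : v (k + 1) ≠ 0 := by
      intro h
      apply hk.2
      simp only [hv] at h
      linarith
    obtain ⟨t, ht, h9⟩ := hkey (k + 1) h8
    rw [Finset.mem_biUnion]
    exact ⟨t, ht, Finset.mem_filter.2 ⟨hk.1, h9⟩⟩
  refine (Finset.card_le_card h7).trans ?_
  refine Finset.card_biUnion_le.trans ?_
  have h10 : ∀ t ∈ range (J + 1), ((range N).filter (fun k : ℕ => R (k + 1 + t) ≠ e)).card ≤
      ((range (N + (J + 1))).filter (fun k : ℕ => R (k + 1) ≠ e)).card := by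
    intro t ht
    rw [Finset.mem_range] at ht
    apply Finset.card_le_card_of_injOn (fun k => k + t)
    · intro k hk
      rw [Finset.mem_coe, Finset.mem_filter, Finset.mem_range] at hk ⊢
      dsimp only
      refine ⟨by omega, ?_⟩
      rw [show k + t + 1 = k + 1 + t by ring]
      exact hk.2
    · intro a _ c _ h
      simpa using h
  refine (Finset.sum_le_sum h10).trans ?_
  rw [Finset.sum_const, Finset.card_range, smul_eq_mul]

/-- adjustment of a power bound -/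
lemma adjust (f F : ℕ → ℕ) (J : ℕ) (hJ : 0 < J) (h : ∀ N, f N ≤ J * F (N + J))
    (hf : ∃ c δ : ℝ, 0 < c ∧ 0 < δ ∧ ∀ᶠ N : ℕ in atTop, c * (N : ℝ) ^ δ ≤ (f N : ℝ)) :
    ∃ c δ : ℝ, 0 < c ∧ 0 < δ ∧ ∀ᶠ N : ℕ in atTop, c * (N : ℝ) ^ δ ≤ (F N : ℝ) := by
  obtain ⟨c, δ, hc, hδ, hev⟩ := hf
  rw [eventually_atTop] at hev
  obtain ⟨N0, hN0⟩ := hev
  have hJR : (0 : ℝ) < J := by exact_mod_cast hJ
  refine ⟨c / J * (1 / 2) ^ δ, δ, by positivity, hδ, ?_⟩
  filter_upwards [eventually_ge_atTop (N0 + 2 * J)] with N hN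
  have h1 := hN0 (N - J) (by omega)
  have h2 := h (N - J)
  rw [Nat.sub_add_cancel (by omega)] at h2
  have h3 : (f (N - J) : ℝ) ≤ J * F N := by exact_mod_cast h2
  have h4 : (1 / 2 : ℝ) * N ≤ ((N - J : ℕ) : ℝ) := by
    rw [Nat.cast_sub (by omega)]
    have : (2 * J : ℝ) ≤ N := by exact_mod_cast (by omega : 2 * J ≤ N)
    linarith
  have h5 : ((1 / 2 : ℝ) * N) ^ δ ≤ ((N - J : ℕ) : ℝ) ^ δ :=
    Real.rpow_le_rpow (by positivity) h4 hδ.le
  rw [Real.mul_rpow (by norm_num) (by positivity)] at h5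
  have h6 : c * ((1 / 2 : ℝ) ^ δ * (N : ℝ) ^ δ) ≤ J * F N :=
    (mul_le_mul_of_nonneg_left h5 hc.le).trans (h1.trans h3)
  have h7 : c / J * (1 / 2) ^ δ * (N : ℝ) ^ δ = c * ((1 / 2 : ℝ) ^ δ * (N : ℝ) ^ δ) / J := by
    field_simp
  rw [h7, div_le_iff₀ hJR]
  linarith

/-- The relations between the digits of several numbers. The hypothesis is the joint statement for
the single numbers `θ - n`, `θ` a nontrivial integer combination and `n` an integer. -/
theorem relations {ι : Type} [Fintype ι] (b : ℕ) (hb : 2 ≤ b) (x : ι → ℝ)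
    (H : ∀ z : ι → ℤ, z ≠ 0 → ∀ n : ℤ,
      JointlyFail (fun _ : Unit => ∑ i, (z i : ℝ) * x i - n) b)
    (g : ι → ℕ → ℤ) (G : ℤ) (hg : ∀ i k, |g i k| ≤ G)
    (hs : ∀ i, HasSum (fun k : ℕ => (g i k : ℝ) / (b : ℝ) ^ k) (x i)) :
    ∀ (m : ℕ) (q : ι → ℕ → ℤ), (∃ i, ∃ j ∈ range (m + 1), q i j ≠ 0) → ∀ e : ℤ,
      ∃ c δ : ℝ, 0 < c ∧ 0 < δ ∧ ∀ᶠ N : ℕ in atTop,
        c * (N : ℝ) ^ δ ≤ (fails (rel g m q) e N : ℝ) := by
  intro m
  induction m with
  | zero =>
    rintro q ⟨i, j, hj, hq⟩ e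
    obtain ⟨n0, hn0⟩ := rel_hasSum b hb x g hs 0 q
    refine fails_of_joint b _ (H _ ?_ n0) _ _ (rel_bound g G hg 0 q) hn0 e
    intro h0
    have := congrFun h0 i
    rw [Finset.mem_range] at hj
    have hj0 : j = 0 := by omega
    subst hj0
    simp at this
    exact hq this
  | succ m ih =>
    intro q hq e
    by_cases hz : (fun i => ∑ j ∈ range (m + 1 + 1), q i j * (b : ℤ) ^ j) = 0
    · have hz' : ∀ i, ∑ j ∈ range (m + 2), q i j * (b : ℤ) ^ j = 0 := fun i => congrFun hz i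
      choose q' hq1 hq2 using fun i => divide (b : ℤ) m (q i) (hz' i)
      obtain ⟨i, hi⟩ := hq
      obtain ⟨j, hj, hne⟩ := hq1 i hi
      have hb1 : ((b : ℤ) - 1) ≠ 0 := by
        have : (2 : ℤ) ≤ b := by exact_mod_cast hb
        omega
      have hR : ∀ k, rel g (m + 1) q k = rel g m q' (k + 1) - b * rel g m q' k := by
        intro k
        unfold rel
        rw [Finset.mul_sum, ← Finset.sum_sub_distrib]
        apply Finset.sum_congr rfl
        intro i _
        exact hq2 i (g i) k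
      obtain ⟨J, hJ, htr⟩ := transfer b hb (rel g m q') (rel g (m + 1) q) _
        (rel_bound g G hg m q') e hR
      refine adjust _ _ J hJ htr ?_
      have h1 := ih (fun i j => ((b : ℤ) - 1) * q' i j) ⟨i, j, hj, mul_ne_zero hb1 hne⟩ (-e)
      have h2 : rel g m (fun i j => ((b : ℤ) - 1) * q' i j) =
          fun k => ((b : ℤ) - 1) * rel g m q' k := by
        funext k
        unfold rel
        rw [Finset.mul_sum]
        apply Finset.sum_congr rfl
        intro i _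
        rw [Finset.mul_sum]
        apply Finset.sum_congr rfl
        intro j _
        ring
      rw [h2] at h1
      exact h1
    · obtain ⟨n0, hn0⟩ := rel_hasSum b hb x g hs (m + 1) q
      exact fails_of_joint b _ (H _ hz n0) _ _ (rel_bound g G hg (m + 1) q) hn0 e

end Pool.Agent.N549.JC
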