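import Pool.Agent.N549.JC.Conj

/-!
Ramification above `2`, and fields without ramified primes over `ℚ(i)`.
-/

set_option autoImplicit false

namespace Pool.Agent.N549.JC

open Polynomial Pool.Agent.H323R2 NumberField IntermediateField

/-- The ramification index in `F(i)/F` is at most two. -/
theorem ram_descend_two (M F : Type) [Field M] [NumberField M] [Field F] [NumberField F]
    (j : F →+* M) (τ : 𝓞 M →+* 𝓞 M) (hτ : ∀ y, τ (τ y) = y)
    (htr : ∀ y : 𝓞 M, ∃ a : 𝓞 F, RingOfIntegers.mapRingHom j a = y + τ y)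
    (hnm : ∀ y : 𝓞 M, ∃ a : 𝓞 F, RingOfIntegers.mapRingHom j a = y * τ y)
    (p : ℕ) (hp : p.Prime)
    (P : Ideal (𝓞 F)) (hP : P.IsPrime) (hpP : (p : 𝓞 F) ∈ P) (hpP2 : (p : 𝓞 F) ∉ P ^ 2) :
    ∃ P' : Ideal (𝓞 M), P'.IsPrime ∧ (p : 𝓞 M) ∈ P' ∧ (p : 𝓞 M) ∉ P' ^ 3 := by
  set J : 𝓞 F →+* 𝓞 M := RingOfIntegers.mapRingHom j with hJ
  obtain ⟨P', hP', hPP'⟩ := exists_above M F j P hP
  have hpP' : (p : 𝓞 M) ∈ P' := by
    have : (p : 𝓞 F) ∈ P'.comap J := by rw [hPP']; exact hpP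
    rw [Ideal.mem_comap, map_natCast] at this
    exact this
  refine ⟨P', hP', hpP', fun h3 => ?_⟩
  have hp0 : (p : 𝓞 M) ≠ 0 := by exact_mod_cast hp.ne_zero
  have hP'0 : P' ≠ ⊥ := by
    rintro rfl
    exact hp0 (by simpa using hpP')
  -- the prime-to-`P` part of `p`
  obtain ⟨A, hA⟩ := Ideal.dvd_iff_le.2 ((Ideal.span_singleton_le_iff_mem P).2 hpP)
  have hAP : ¬ A ≤ P := by
    intro hle
    apply hpP2
    have h1 : Ideal.span {(p : 𝓞 F)} ≤ P ^ 2 := by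
      rw [hA, pow_two]
      exact Ideal.mul_mono le_rfl hle
    exact h1 (Ideal.mem_span_singleton_self _)
  obtain ⟨s, hsA, hsP⟩ := Set.not_subset.1 hAP
  have hs : ∀ a ∈ P, ∃ c : 𝓞 F, s * a = p * c := by
    intro a ha
    have h1 : s * a ∈ Ideal.span {(p : 𝓞 F)} := by
      rw [hA, mul_comm s a]
      exact Ideal.mul_mem_mul ha hsA
    rw [Ideal.mem_span_singleton] at h1
    exact h1
  have hs' : ∀ a ∈ P, J s * J a ∈ P' ^ 3 := by
    intro a ha
    obtain ⟨c, hc⟩ := hs a ha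
    rw [← map_mul, hc, map_mul, map_natCast]
    exact (P' ^ 3).mul_mem_right _ h3
  -- the element `t`
  obtain ⟨t, htP, ht⟩ : ∃ t : 𝓞 M, t ∉ P' ∧ ∀ y ∈ P', t * y ∈ P' ∧ τ (t * y) ∈ P' := by
    by_cases hc : ∃ t : 𝓞 M, t ∉ P' ∧ τ t ∈ P'
    · obtain ⟨t, h1, h2⟩ := hc
      refine ⟨t, h1, fun y hy => ⟨P'.mul_mem_left _ hy, ?_⟩⟩
      rw [map_mul]
      exact P'.mul_mem_right _ h2
    · push Not at hc
      refine ⟨1, fun h1 => hP'.ne_top ((Ideal.eq_top_iff_one _).2 h1), fun y hy => ?_⟩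
      rw [one_mul]
      refine ⟨hy, ?_⟩
      by_contra h1
      exact hc (τ y) h1 (by rw [hτ]; exact hy)
  have hkey : ∀ y ∈ P', (J s * t ^ 2) * y ^ 2 ∈ P' ^ 3 := by
    intro y hy
    obtain ⟨h1, h2⟩ := ht y hy
    obtain ⟨a, ha⟩ := htr (t * y)
    obtain ⟨b, hb⟩ := hnm (t * y)
    have haP : a ∈ P := by
      rw [← hPP', Ideal.mem_comap, ha]
      exact P'.add_mem h1 h2
    have hbP : b ∈ P := by
      rw [← hPP', Ideal.mem_comap, hb]
      exact P'.mul_mem_right _ h1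
    have e1 : (J s * t ^ 2) * y ^ 2 = (J s * J a) * (t * y) - J s * J b := by
      rw [ha, hb]; ring
    rw [e1]
    exact (P' ^ 3).sub_mem ((P' ^ 3).mul_mem_right _ (hs' a haP)) (hs' b hbP)
  -- `P' ^ 3` contains no square of an element of `P'` outside `P' ^ 2`
  have hne : P' ^ 2 ≠ P' := by
    intro h
    have h4 : P' * P' = P' * 1 := by rw [mul_one, ← pow_two, h]
    have h5 := mul_left_cancel₀ hP'0 h4
    rw [Ideal.one_eq_top] at h5
    exact hP'.ne_top h5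
  have hlt : P' ^ 2 < P' := lt_of_le_of_ne (Ideal.pow_le_self two_ne_zero) hne
  obtain ⟨y, hyP, hy2⟩ := Set.exists_of_ssubset hlt
  have hJs : J s ∉ P' := by
    intro h
    apply hsP
    have : s ∈ P'.comap J := h
    rw [hPP'] at this
    exact this
  have h6 := hkey y hyP
  have hPr : Prime P' := Ideal.prime_of_isPrime hP'0 hP'
  -- factor the principal ideals
  obtain ⟨B, hB⟩ := Ideal.dvd_iff_le.2 ((Ideal.span_singleton_le_iff_mem P').2 hyP)
  have hBP : ¬ P' ∣ B := by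
    intro hd
    apply hy2
    have h7 : Ideal.span {y} ≤ P' ^ 2 := by
      rw [hB, pow_two]
      exact Ideal.mul_mono le_rfl (Ideal.dvd_iff_le.1 hd)
    exact h7 (Ideal.mem_span_singleton_self _)
  have h8 : P' ^ 3 ∣ Ideal.span {J s * t ^ 2} * (P' * B) ^ 2 := by
    rw [← hB, Ideal.span_singleton_pow, Ideal.span_singleton_mul_span_singleton,
      Ideal.dvd_iff_le, Ideal.span_singleton_le_iff_mem]
    exact h6
  have h9 : P' ^ 2 * P' ∣ P' ^ 2 * (Ideal.span {J s * t ^ 2} * B ^ 2) := by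
    have e2 : P' ^ 2 * P' = P' ^ 3 := by ring
    have e3 : P' ^ 2 * (Ideal.span {J s * t ^ 2} * B ^ 2) =
        Ideal.span {J s * t ^ 2} * (P' * B) ^ 2 := by ring
    rw [e2, e3]; exact h8
  have h10 : P' ∣ Ideal.span {J s * t ^ 2} * B ^ 2 :=
    (mul_dvd_mul_iff_left (pow_ne_zero 2 hP'0)).1 h9
  rcases hPr.dvd_or_dvd h10 with h11 | h11
  · rw [Ideal.dvd_iff_le, Ideal.span_singleton_le_iff_mem] at h11
    rcases hP'.mem_or_mem h11 with h12 | h12
    · exact hJs h12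
    · exact htP (hP'.mem_of_pow_mem 2 h12)
  · exact hBP (hPr.dvd_of_dvd_pow h11)

end Pool.Agent.N549.JC
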